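import Pool.Agent.T9h15.RV.Sy

set_option autoImplicit false
set_option linter.unusedSectionVars false
set_option linter.unusedSimpArgs false

/-! The elimination of directed letters for unilateral forms. -/

namespace Pool.Agent.T9h15.RV

open Matrix TH6.LF TH57.Thr Relation Pool.Agent.R719.LF Pool.Agent.T9h15.UN

variable {Γ : Type} [Group Γ] {Λ : Type} [MulAction Γ Λ]

section order

/-- the orbit of a pair -/
def orb (Γ : Type) [Group Γ] {Λ : Type} [MulAction Γ Λ] (x y : Om Λ) :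
    Quotient (MulAction.orbitRel Γ (Om Λ × Om Λ)) := Quotient.mk _ (x, y)

theorem orb_smul (g : Γ) (x y : Om Λ) : orb Γ (g • x) (g • y) = orb Γ x y := by
  apply Quotient.sound
  change (g • x, g • y) ∈ MulAction.orbit Γ (x, y)
  exact ⟨g, rfl⟩

/-- the orientation of the letters -/
def lto (Γ : Type) [Group Γ] {Λ : Type} [MulAction Γ Λ] (x y : Om Λ) : Prop :=
  WellOrderingRel (orb Γ x y) (orb Γ (ot y) (ot x))

theorem lto_asymm (x y : Om Λ) (h : lto Γ x y) : ¬ lto Γ (ot y) (ot x) := by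
  unfold lto at h ⊢
  rw [ot_ot, ot_ot]
  exact asymm_of WellOrderingRel h

theorem lto_inv : Inv Γ (lto Γ (Λ := Λ)) := by
  intro g x y h
  unfold lto at h ⊢
  rw [ot_smul, ot_smul, orb_smul, orb_smul]
  exact h

theorem ne_inv : Inv Γ (ne ot (lto Γ (Λ := Λ))) := by
  intro g x y h
  refine ⟨fun h1 => h.1 ((lto_inv.iff g _ _).mp h1), fun h1 => h.2 ?_⟩
  rw [ot_smul, ot_smul] at h1
  exact (lto_inv.iff g _ _).mp h1

theorem ne_rev (x y : Om Λ) (h : ne ot (lto Γ) x y) : ne ot (lto Γ) (ot y) (ot x) := by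
  refine ⟨h.2, ?_⟩
  rw [ot_ot, ot_ot]
  exact h.1

theorem rev_of_ne {x y : Om Λ} (h : ne ot (lto Γ) x y) :
    y.s = (!x.s) ∧ ∃ g : Γ, g • x.p = y.p ∧ g • y.p = x.p := by
  have h1 : orb Γ x y = orb Γ (ot y) (ot x) := by
    rcases trichotomous_of WellOrderingRel (orb Γ x y) (orb Γ (ot y) (ot x)) with h2 | h2 | h2
    · exact absurd h2 h.1
    · exact h2
    · exfalso
      apply h.2
      unfold lto
      rw [ot_ot, ot_ot]
      exact h2
  have h2 := Quotient.exact h1
  change (x, y) ∈ MulAction.orbit Γ (ot y, ot x) at h2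
  obtain ⟨g, hg⟩ := h2
  have h3 : g • ot y = x := congrArg Prod.fst hg
  have h4 : g • ot x = y := congrArg Prod.snd hg
  refine ⟨(congrArg Om.s h4).symm, g, congrArg Om.p h4, congrArg Om.p h3⟩

end order

section blocks

variable {κ : Type} [Fintype κ] [DecidableEq κ]

/-- the labels of the form -/
def lab (ℓ : κ → Λ) : κ ⊕ κ → Om Λ := Sum.elim (fun k => ⟨true, ℓ k⟩) (fun k => ⟨false, ℓ k⟩)

theorem sup_fb {ℓ : κ → Λ} {R : Om Λ → Om Λ → Prop} {A B C D : Matrix κ κ (MonoidAlgebra ℤ Γ)}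
    (hA : ∀ k l g, (A k l).coeff g ≠ 0 → R ⟨true, ℓ k⟩ ⟨true, g • ℓ l⟩)
    (hB : ∀ k l g, (B k l).coeff g ≠ 0 → R ⟨true, ℓ k⟩ ⟨false, g • ℓ l⟩)
    (hC : ∀ k l g, (C k l).coeff g ≠ 0 → R ⟨false, ℓ k⟩ ⟨true, g • ℓ l⟩)
    (hD : ∀ k l g, (D k l).coeff g ≠ 0 → R ⟨false, ℓ k⟩ ⟨false, g • ℓ l⟩) :
    Sup (lab ℓ) (lab ℓ) R (fromBlocks A B C D) := by
  rintro (k | k) (l | l) g hg
  · exact hA k l g hg
  · exact hB k l g hg
  · exact hC k l g hg
  · exact hD k l g hg

theorem coeff_zero_ne {k l : κ} {g : Γ}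
    (h : ((0 : Matrix κ κ (MonoidAlgebra ℤ Γ)) k l).coeff g ≠ 0) : False := h rfl

theorem coeff_one_ne {k l : κ} {g : Γ}
    (h : ((1 : Matrix κ κ (MonoidAlgebra ℤ Γ)) k l).coeff g ≠ 0) : k = l ∧ g = 1 := by
  classical
  rw [Matrix.one_apply] at h
  split_ifs at h with h1
  · rw [MonoidAlgebra.one_def, MonoidAlgebra.coeff_single, Finsupp.single_apply] at h
    refine ⟨h1, ?_⟩
    by_contra h3
    exact h (if_neg (fun h4 => h3 h4.symm))
  · exact absurd rfl h

theorem coeff_smul_ne {ε : ℤ} {A : Matrix κ κ (MonoidAlgebra ℤ Γ)} {k l : κ} {g : Γ}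
    (h : ((ε • A) k l).coeff g ≠ 0) : (A k l).coeff g ≠ 0 := by
  rw [Matrix.smul_apply, coeff_zsmul'] at h
  exact right_ne_zero_of_mul h

/-- the twisting matrix -/
noncomputable def tw (ℓ : κ → Λ) {ε : ℤ} (hε : ε * ε = 1) : Tw Γ (lab ℓ) ot ε where
  P := fromBlocks 0 1 (ε • 1) 0
  Q := fromBlocks 0 (ε • 1) 1 0
  mul := by
    rw [fromBlocks_multiply]
    simp only [Matrix.zero_mul, Matrix.mul_zero, Matrix.one_mul, Matrix.mul_one, zero_add, add_zero,
      smul_smul, hε, one_smul, fromBlocks_one, Matrix.smul_mul, smul_zero]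
  mul' := by
    rw [fromBlocks_multiply]
    simp only [Matrix.zero_mul, Matrix.mul_zero, Matrix.one_mul, Matrix.mul_one, zero_add, add_zero,
      smul_smul, hε, one_smul, fromBlocks_one, Matrix.smul_mul, Matrix.mul_smul, smul_zero]
  adjP := by
    rw [adj_fromBlocks, adj_zero, adj_zsmul, adj_one, fromBlocks_smul, smul_zero, smul_smul, hε,
      one_smul]
  sup := by
    apply sup_fb
    · intro k l g h; exact (coeff_zero_ne h).elim
    · intro k l g h
      obtain ⟨rfl, rfl⟩ := coeff_one_ne h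
      rw [one_smul]; rfl
    · intro k l g h
      obtain ⟨rfl, rfl⟩ := coeff_one_ne (coeff_smul_ne h)
      rw [one_smul]; rfl
    · intro k l g h; exact (coeff_zero_ne h).elim
  sup' := by
    apply sup_fb
    · intro k l g h; exact (coeff_zero_ne h).elim
    · intro k l g h
      obtain ⟨rfl, rfl⟩ := coeff_one_ne (coeff_smul_ne h)
      rw [one_smul]; rfl
    · intro k l g h
      obtain ⟨rfl, rfl⟩ := coeff_one_ne h
      rw [one_smul]; rfl
    · intro k l g h; exact (coeff_zero_ne h).elim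

theorem fb_sq (B C : Matrix κ κ (MonoidAlgebra ℤ Γ)) (n : ℕ) :
    (fromBlocks 0 B C 0) ^ (2 * n) = fromBlocks ((B * C) ^ n) 0 0 ((C * B) ^ n) := by
  induction n with
  | zero => simp [fromBlocks_one]
  | succ n ih =>
    rw [show 2 * (n + 1) = 2 * n + 1 + 1 from rfl, pow_succ, pow_succ, ih, fromBlocks_multiply,
      fromBlocks_multiply]
    simp only [Matrix.mul_zero, Matrix.zero_mul, add_zero, zero_add, pow_succ, Matrix.mul_assoc]

theorem smul_pow' (ε : ℤ) (A : Matrix κ κ (MonoidAlgebra ℤ Γ)) (n : ℕ) :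
    (ε • A) ^ n = ε ^ n • A ^ n := smul_pow ε A n

end blocks

section conj

variable {Ω : Type} [MulAction Γ Ω] {J : Type} [Fintype J] [DecidableEq J] {L : J → Ω} {τ : Ω → Ω}
  {ε : ℤ}

theorem conj_alg (U D P Y Z : Matrix J J (MonoidAlgebra ℤ Γ)) :
    (1 + U) * (P + Y) * (1 + D) - (P + Z)
      = Y - Z + (U * (P + Y) + (P + Y) * D + U * (P + Y) * D) := by
  noncomm_ring

theorem conj_sup (T : Tw Γ L τ ε) (hτ : ∀ x, τ (τ x) = x)
    (hτg : ∀ (g : Γ) x, τ (g • x) = g • τ x) {ρ : Ω → Ω → Prop} (hρ : Inv Γ ρ)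
    (hs : ∀ x y, ρ x y → ρ (τ y) (τ x)) (E M M' P Y Z : Matrix J J (MonoidAlgebra ℤ Γ))
    (h1 : M * T.Q = P + Y) (h2 : M' * T.Q = P + Z) (sP : Sup L L (fun x y => x = y) P)
    (sY : Sup L L (TransGen ρ) Y) (sZ : Sup L L (TransGen ρ) Z)
    (sU : Sup L L (TransGen ρ) (E - 1)) :
    Sup L L (TransGen ρ) ((E * M * adj E - M') * T.Q) := by
  obtain ⟨U, hU⟩ : ∃ U, E - 1 = U := ⟨_, rfl⟩
  rw [hU] at sU
  have hE : E = 1 + U := by rw [← hU]; abel
  have hEd : adj E = T.Q * T.dag E * T.P := by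
    unfold Tw.dag
    have h9 : T.Q * (T.P * adj E * T.Q) * T.P = (T.Q * T.P) * adj E * (T.Q * T.P) := by
      simp only [Matrix.mul_assoc]
    rw [h9, T.mul', Matrix.one_mul, Matrix.mul_one]
  have hTG : Inv Γ (TransGen ρ) := inv_tg hρ
  have hdU : Sup L L (TransGen ρ) (T.dag U) := by
    refine (T.sup_dag hτ hτg hTG sU).mono fun x y h => ?_
    have h9 : ∀ x y : Ω, TransGen ρ x y → TransGen ρ (τ y) (τ x) := by
      intro x y h
      induction h with
      | single h => exact TransGen.single (hs _ _ h)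
      | tail _ h ih => exact TransGen.head (hs _ _ h) ih
    have h10 := h9 _ _ h
    rwa [hτ, hτ] at h10
  obtain ⟨D, hD⟩ : ∃ D, T.dag U = D := ⟨_, rfl⟩
  have e3 : (E * M * adj E - M') * T.Q = (1 + U) * (P + Y) * (1 + D) - (P + Z) := by
    have hdE : T.dag E = 1 + D := by rw [hE, T.dag_add, T.dag_one, hD]
    rw [Matrix.sub_mul, h2, hEd, hdE, ← h1, hE]
    have h9 : (1 + U) * M * (T.Q * (1 + D) * T.P) * T.Q
        = (1 + U) * (M * T.Q) * (1 + D) * (T.P * T.Q) := by
      simp only [Matrix.mul_assoc]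
    rw [h9, T.mul, Matrix.mul_one]
  rw [hD] at hdU
  rw [e3, conj_alg]
  have c1 : ∀ x y z : Ω, TransGen ρ x y → (y = z ∨ TransGen ρ y z) → TransGen ρ x z := by
    rintro x y z h (h' | h')
    · rw [← h']; exact h
    · exact h.trans h'
  have c2 : ∀ x y z : Ω, (x = y ∨ TransGen ρ x y) → TransGen ρ y z → TransGen ρ x z := by
    rintro x y z (h' | h') h
    · rw [h']; exact h
    · exact h'.trans h
  have hor : Inv Γ (fun x y : Ω => x = y ∨ TransGen ρ x y) := by
    rintro g x y (h | h)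
    · left; rw [h]
    · right; exact hTG g _ _ h
  have sPY : Sup L L (fun x y => x = y ∨ TransGen ρ x y) (P + Y) :=
    (sP.mono fun x y h => Or.inl h).add (sY.mono fun x y h => Or.inr h)
  have sU' := sU.mul hor c1 sPY
  refine (sup_sub sY sZ).add ((sU'.add (sPY.mul hTG c2 hdU)).add ?_)
  exact sU'.mul hTG (fun x y z h h' => h.trans h') hdU

end conj

section main

variable {κ : Type} [Fintype κ] [DecidableEq κ]

theorem elim_form (S : SysL Γ Λ) (hno : ∀ g : Γ, g = g⁻¹ → ∀ x : Λ, g • x = x) {ε : ℤ}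
    (hε : ε * ε = 1) (ℓ : κ → Λ) (ψ : Bool → Matrix κ κ (MonoidAlgebra ℤ Γ))
    (hψ : ∀ c, Sup ℓ ℓ (S.R c) (ψ c)) (N : ℕ)
    (hN : ((ψ true + ε • adj (ψ true)) * (ψ false + ε • adj (ψ false))) ^ N = 0) :
    ∃ (S' : SysL Γ Λ) (ψ' : Bool → Matrix κ κ (MonoidAlgebra ℤ Γ)) (N' : ℕ),
      (∀ b n x z, Wk S'.R b (2 * n + 1) x z → ∃ n', n ≤ n' ∧ Wk S.R b (2 * n' + 1) x z) ∧
      (∀ b x z, S'.R b x z → ∃ g : Γ, g • x = z ∧ g • z = x) ∧
      (∀ c, Sup ℓ ℓ (S'.R c) (ψ' c)) ∧
      ((ψ' true + ε • adj (ψ' true)) * (ψ' false + ε • adj (ψ' false))) ^ N' = 0 ∧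
      IsoH ε (ufb ψ) (ufb ψ') := by
  have hε' : (-ε) * (-ε) = 1 := by rw [neg_mul_neg, hε]
  set α := ψ true + ε • adj (ψ true) with hα
  set β := ψ false + ε • adj (ψ false) with hβ
  have hαs : adj α = ε • α := by
    rw [hα, adj_add, adj_zsmul, adj_adj, smul_add, smul_smul, hε, one_smul, add_comm]
  have hβs : adj β = ε • β := by
    rw [hβ, adj_add, adj_zsmul, adj_adj, smul_add, smul_smul, hε, one_smul, add_comm]
  have hαS : Sup ℓ ℓ (S.R true) α :=
    (hψ true).add (((hψ true).adj (S.inv true) (S.symm true)).zsmul ε)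
  have hβS : Sup ℓ ℓ (S.R false) β :=
    (hψ false).add (((hψ false).adj (S.inv false) (S.symm false)).zsmul ε)
  let T : Tw Γ (lab ℓ) ot ε := tw ℓ hε
  let X₀ : Matrix (κ ⊕ κ) (κ ⊕ κ) (MonoidAlgebra ℤ Γ) := fromBlocks 0 (ε • α) β 0
  have hρ₀ : Inv Γ (lr S.R) := inv_lr S.inv
  have hX₀ : Sup (lab ℓ) (lab ℓ) (lr S.R) X₀ := by
    apply sup_fb
    · intro k l g h; exact (coeff_zero_ne h).elim
    · intro k l g h; exact ⟨rfl, hαS k l g (coeff_smul_ne h)⟩
    · intro k l g h; exact ⟨rfl, hβS k l g h⟩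
    · intro k l g h; exact (coeff_zero_ne h).elim
  have hdag : ∀ B C : Matrix κ κ (MonoidAlgebra ℤ Γ),
      T.dag (fromBlocks 0 B C 0) = fromBlocks 0 (ε • adj B) (ε • adj C) 0 := by
    intro B C
    change fromBlocks 0 1 (ε • 1) 0 * adj (fromBlocks 0 B C 0) * fromBlocks 0 (ε • 1) 1 0 = _
    rw [adj_fromBlocks, adj_zero, fromBlocks_multiply, fromBlocks_multiply]
    simp only [Matrix.zero_mul, Matrix.mul_zero, Matrix.one_mul, Matrix.mul_one, zero_add, add_zero,
      Matrix.smul_mul, Matrix.mul_smul, smul_zero]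
  have hd₀ : T.dag X₀ = X₀ := by
    simp only [X₀]
    rw [hdag, adj_zsmul, hαs, hβs]
    simp only [smul_smul, hε, one_smul]
  have hnil : X₀ ^ (2 * (N + 1) + 1) = 0 := by
    have h1 : X₀ ^ (2 * (N + 1)) = 0 := by
      simp only [X₀]
      have e1 : (α * β) ^ (N + 1) = 0 := by rw [pow_succ, hN, Matrix.zero_mul]
      have e2 : (β * α) ^ (N + 1) = 0 := by
        rw [pow_swap, hN, Matrix.mul_zero, Matrix.zero_mul]
      rw [fb_sq, Matrix.smul_mul, Matrix.mul_smul, smul_pow', smul_pow', e1, e2, smul_zero,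
        fromBlocks_zero]
    rw [pow_succ, h1, Matrix.zero_mul]
  obtain ⟨ρ, X, E, h1, h2, h3, h4, h5, h6, h7, h8⟩ := el_final T ot_ot ot_smul (lt := lto Γ)
    lto_asymm lto_inv hε hρ₀ S.mt hX₀ hd₀ hnil
  -- the blocks of `X`
  obtain ⟨B, C, hX, hBS, hCS⟩ : ∃ B C : Matrix κ κ (MonoidAlgebra ℤ Γ),
      X = fromBlocks 0 B C 0 ∧
      (∀ k l g, (B k l).coeff g ≠ 0 → ρ ⟨true, ℓ k⟩ ⟨false, g • ℓ l⟩ ∧
        ne ot (lto Γ) ⟨true, ℓ k⟩ ⟨false, g • ℓ l⟩) ∧
      (∀ k l g, (C k l).coeff g ≠ 0 → ρ ⟨false, ℓ k⟩ ⟨true, g • ℓ l⟩ ∧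
        ne ot (lto Γ) ⟨false, ℓ k⟩ ⟨true, g • ℓ l⟩) := by
    refine ⟨X.toBlocks₁₂, X.toBlocks₂₁, ?_, fun k l g hg => h4 (Sum.inl k) (Sum.inr l) g hg,
      fun k l g hg => h4 (Sum.inr k) (Sum.inl l) g hg⟩
    conv_lhs => rw [← fromBlocks_toBlocks X]
    congr 1
    · ext k l g
      by_contra h
      have h9 := h4 (Sum.inl k) (Sum.inl l) g h
      have h10 := (rev_of_ne h9.2).1
      exact absurd h10 (by simp [lab, om_smul])
    · ext k l g
      by_contra h
      have h9 := h4 (Sum.inr k) (Sum.inr l) g h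
      have h10 := (rev_of_ne h9.2).1
      exact absurd h10 (by simp [lab, om_smul])
  rw [hX, hdag] at h6
  obtain ⟨-, hBs, hCs, -⟩ := fromBlocks_inj.mp h6
  let S' : SysL Γ Λ := sysOf ρ h1 h2 (ne ot (lto Γ)) ne_inv ne_rev
  -- the quadratic refinements
  obtain ⟨ψt, ht, htS⟩ := half_lab hno hε (S'.irr true) (ε • B)
    (by rw [adj_zsmul, hBs, smul_smul, hε, one_smul])
    (by
      intro k l g hg
      have h9 := hBS k l g (coeff_smul_ne hg)
      exact h9)
  obtain ⟨ψf, hf, hfS⟩ := half_lab hno hε (S'.irr false) C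
    (by
      have := congrArg (fun M => ε • M) hCs
      simp only [smul_smul, hε, one_smul] at this
      exact this)
    (by
      intro k l g hg
      have h9 := hCS k l g hg
      exact h9)
  let ψ' : Bool → Matrix κ κ (MonoidAlgebra ℤ Γ) := fun b => if b then ψt else ψf
  have hS'S : ∀ b n x z, Wk S'.R b (2 * n + 1) x z → ∃ n', n ≤ n' ∧ Wk S.R b (2 * n' + 1) x z := by
    intro b n x z h
    have e1 := rn_of_wk _ _ _ _ h
    have hl : ∀ x y : Om Λ, lr S'.R x y → TransGen (lr S.R) x y := by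
      rintro ⟨s, x⟩ ⟨t, y⟩ ⟨h9, h10⟩
      simp only at h9 h10
      rw [h9]
      exact h3 _ _ h10.1
    have e2 : ∀ m (x z : Om Λ), Rn (lr S'.R) m x z → ∃ m', m ≤ m' ∧ Rn (lr S.R) m' x z := by
      intro m
      induction m with
      | zero => intro x z h; exact ⟨0, le_rfl, h⟩
      | succ m ih =>
        rintro x z ⟨y, h9, h10⟩
        obtain ⟨m', h11, h12⟩ := ih x y h9
        obtain ⟨j, hj⟩ := rn_of_tg (hl _ _ h10)
        exact ⟨m' + (j + 1), by omega, h12.trans hj⟩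
    obtain ⟨m', h9, h10⟩ := e2 _ _ _ e1
    obtain ⟨h11, h12⟩ := wk_of_rn _ _ _ h10
    simp only [Bool.not_not] at h11 h12
    have h13 := sd_par h12
    obtain ⟨n', hn'⟩ : ∃ n', m' = 2 * n' + 1 := ⟨m' / 2, by omega⟩
    subst hn'
    exact ⟨n', by omega, h11⟩
  refine ⟨S', ψ', 2 * (N + 1) + 1, hS'S, ?_, ?_, ?_, ?_⟩
  · intro b x z h
    exact (rev_of_ne h.2).2
  · intro c
    cases c
    · exact hfS
    · exact htS
  · change ((ψt + ε • adj ψt) * (ψf + ε • adj ψf)) ^ _ = 0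
    rw [← ht, ← hf]
    have h9 : X ^ (2 * (2 * (N + 1) + 1)) = 0 := by
      rw [mul_comm, pow_mul, h5, zero_pow (by norm_num)]
    rw [hX, fb_sq, ← fromBlocks_zero] at h9
    obtain ⟨h10, -⟩ := fromBlocks_inj.mp h9
    rw [Matrix.smul_mul, smul_pow', h10, smul_zero]
  · -- the isometry
    have hsymψ : uf (ψ true) (ψ false) + ε • adj (uf (ψ true) (ψ false)) = (1 + X₀) * T.P := by
      change _ = (1 + fromBlocks 0 (ε • α) β 0) * fromBlocks 0 1 (ε • 1) 0
      rw [uf, adj_fromBlocks, adj_zero, adj_one, fromBlocks_smul, fromBlocks_add, smul_zero,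
        add_zero, zero_add, ← hα, ← hβ, Matrix.add_mul, Matrix.one_mul, fromBlocks_multiply,
        fromBlocks_add]
      simp only [Matrix.zero_mul, Matrix.mul_zero, Matrix.one_mul, Matrix.mul_one, zero_add,
        add_zero, Matrix.smul_mul, Matrix.mul_smul, smul_smul, hε, one_smul, smul_zero]
    have hsymψ' : uf ψt ψf + ε • adj (uf ψt ψf) = (1 + X) * T.P := by
      rw [hX]
      change _ = (1 + fromBlocks 0 B C 0) * fromBlocks 0 1 (ε • 1) 0
      rw [uf, adj_fromBlocks, adj_zero, adj_one, fromBlocks_smul, fromBlocks_add, smul_zero,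
        add_zero, zero_add, ← ht, ← hf, Matrix.add_mul, Matrix.one_mul, fromBlocks_multiply,
        fromBlocks_add]
      simp only [Matrix.zero_mul, Matrix.mul_zero, Matrix.one_mul, Matrix.mul_one, zero_add,
        add_zero, Matrix.smul_mul, Matrix.mul_smul, smul_smul, hε, one_smul, smul_zero]
    let A := E.val * uf (ψ true) (ψ false) * adj E.val - uf ψt ψf
    have hconj : ∀ M : Matrix (κ ⊕ κ) (κ ⊕ κ) (MonoidAlgebra ℤ Γ),
        E.val * M * adj E.val + ε • adj (E.val * M * adj E.val)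
          = E.val * (M + ε • adj M) * adj E.val := by
      intro M
      simp only [adj_mul, adj_adj, Matrix.mul_add, Matrix.add_mul, Matrix.mul_smul,
        Matrix.smul_mul, Matrix.mul_assoc]
    have hEd : adj E.val = T.Q * T.dag E.val * T.P := by
      unfold Tw.dag
      have h9 : T.Q * (T.P * adj E.val * T.Q) * T.P = (T.Q * T.P) * adj E.val * (T.Q * T.P) := by
        simp only [Matrix.mul_assoc]
      rw [h9, T.mul', Matrix.one_mul, Matrix.mul_one]
    have hAs : A + ε • adj A = 0 := by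
      have h9 : E.val * ((1 + X₀) * T.P) * adj E.val = (1 + X) * T.P := by
        rw [hEd]
        have h10 : E.val * ((1 + X₀) * T.P) * (T.Q * T.dag E.val * T.P)
            = E.val * (1 + X₀) * (T.P * T.Q) * T.dag E.val * T.P := by
          simp only [Matrix.mul_assoc]
        rw [h10, T.mul, Matrix.mul_one, h8]
      have h10 := hconj (uf (ψ true) (ψ false))
      rw [hsymψ, h9, ← hsymψ'] at h10
      simp only [A]
      rw [adj_sub, smul_sub]
      have h11 : ∀ a b c d : Matrix (κ ⊕ κ) (κ ⊕ κ) (MonoidAlgebra ℤ Γ), a + b = c + d →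
          a - c + (b - d) = 0 := by
        intro a b c d h
        have : a - c + (b - d) = (a + b) - (c + d) := by abel
        rw [this, h, sub_self]
      exact h11 _ _ _ _ h10
    have hAs' : adj A = (-ε) • A := by
      have h9 := congrArg (fun M => ε • M) hAs
      simp only [smul_add, smul_smul, hε, one_smul, smul_zero] at h9
      rw [neg_smul]
      exact eq_neg_of_add_eq_zero_right h9
    -- the support of `A`
    have hTG : Inv Γ (TransGen (lr S.R)) := inv_tg hρ₀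
    have hAS : Sup (lab ℓ) (lab ℓ) (TransGen (lr S.R)) (A * T.Q) := by
      have e1 : uf (ψ true) (ψ false) * T.Q = fromBlocks 1 0 0 0
          + fromBlocks 0 (ε • ψ true) (ψ false) 0 := by
        change uf (ψ true) (ψ false) * fromBlocks 0 (ε • 1) 1 0 = _
        rw [uf, fromBlocks_multiply, fromBlocks_add]
        simp only [Matrix.zero_mul, Matrix.mul_zero, Matrix.one_mul, Matrix.mul_one, zero_add,
          add_zero, Matrix.smul_mul, Matrix.mul_smul, smul_zero]
      have e2 : uf ψt ψf * T.Q = fromBlocks 1 0 0 0 + fromBlocks 0 (ε • ψt) ψf 0 := by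
        change uf ψt ψf * fromBlocks 0 (ε • 1) 1 0 = _
        rw [uf, fromBlocks_multiply, fromBlocks_add]
        simp only [Matrix.zero_mul, Matrix.mul_zero, Matrix.one_mul, Matrix.mul_one, zero_add,
          add_zero, Matrix.smul_mul, Matrix.mul_smul, smul_zero]
      have s0 : Sup (lab ℓ) (lab ℓ) (fun x y => x = y)
          (fromBlocks 1 0 0 0 : Matrix (κ ⊕ κ) (κ ⊕ κ) (MonoidAlgebra ℤ Γ)) := by
        apply sup_fb
        · intro k l g h
          obtain ⟨rfl, rfl⟩ := coeff_one_ne h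
          rw [one_smul]
        · intro k l g h; exact (coeff_zero_ne h).elim
        · intro k l g h; exact (coeff_zero_ne h).elim
        · intro k l g h; exact (coeff_zero_ne h).elim
      have s1 : Sup (lab ℓ) (lab ℓ) (TransGen (lr S.R))
          (fromBlocks 0 (ε • ψ true) (ψ false) 0) := by
        apply sup_fb
        · intro k l g h; exact (coeff_zero_ne h).elim
        · intro k l g h
          exact TransGen.single ⟨rfl, hψ true k l g (coeff_smul_ne h)⟩
        · intro k l g h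
          exact TransGen.single ⟨rfl, hψ false k l g h⟩
        · intro k l g h; exact (coeff_zero_ne h).elim
      have s2 : Sup (lab ℓ) (lab ℓ) (TransGen (lr S.R)) (fromBlocks 0 (ε • ψt) ψf 0) := by
        apply sup_fb
        · intro k l g h; exact (coeff_zero_ne h).elim
        · intro k l g h
          exact h3 _ _ (htS k l g (coeff_smul_ne h)).1
        · intro k l g h
          exact h3 _ _ (hfS k l g h).1
        · intro k l g h; exact (coeff_zero_ne h).elim
      exact conj_sup T ot_ot ot_smul hρ₀ S.mt.sym E.val _ _ _ _ _ e1 e2 s0 s1 s2 h7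
    have hAS' : Sup (lab ℓ) (lab ℓ) (fun x z => TransGen (lr S.R) x (ot z)) A := by
      have h9 : A = (A * T.Q) * T.P := by
        rw [Matrix.mul_assoc, T.mul', Matrix.mul_one]
      rw [h9]
      refine hAS.mul ?_ ?_ T.sup
      · intro g x y h
        change g • y = ot (g • x)
        rw [ot_smul, h]
      · intro x y z h h'
        rw [h', ot_ot]
        exact h
    obtain ⟨χ, hχ, -⟩ := half' hε' A hAs' (by
      intro i g hg
      by_contra h9
      have h10 := hAS' i i g h9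
      have h11 : g • lab ℓ i = lab ℓ i := by
        rw [om_smul, hno g hg]
      rw [h11] at h10
      exact S.mt.irr _ h10)
    refine ⟨E, χ, ?_⟩
    change E.val * uf (ψ true) (ψ false) * adj E.val = uf ψt ψf + (χ - ε • adj χ)
    have h9 : χ - ε • adj χ = χ + (-ε) • adj χ := by rw [neg_smul, sub_eq_add_neg]
    rw [h9, ← hχ]
    simp only [A]
    abel

end main

end Pool.Agent.T9h15.RV
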