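import Pool.Agent.T9h15.RV.Ef

set_option autoImplicit false
set_option linter.unusedSectionVars false
set_option linter.unusedSimpArgs false

/-! The recursion: elimination of directed letters and refinement of the labels. -/

namespace Pool.Agent.T9h15.RV

open Matrix TH6.LF TH57.Thr Relation Pool.Agent.R719.LF Pool.Agent.T9h15.UN

variable {Γ : Type} [Group Γ] {Λ : Type} [MulAction Γ Λ]

theorem final_stage' (S : Sys Γ Λ) (hno : ∀ g : Γ, g = g⁻¹ → ∀ x : Λ, g • x = x) {ε : ℤ} (hε : ε * ε = 1) (n : ℕ) :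
    ∀ (b : Bool) {κ : Type} [Fintype κ] [DecidableEq κ] (ℓ : κ → Λ) (_ : Nrm Γ ℓ) (_ : SK Γ ℓ)
      (ψ : Bool → Matrix κ κ (MonoidAlgebra ℤ Γ)) (_ : ∀ c, Sup ℓ ℓ (S.R c) (ψ c))
      (_ : apr (fun c => ψ c + ε • adj (ψ c)) b n = 0), Z0 ε (ufb ψ) := by
  have hε' : (-ε) * (-ε) = 1 := by rw [neg_mul_neg, hε]
  have hsym : ∀ {κ : Type} [Fintype κ] [DecidableEq κ] (ψ : Matrix κ κ (MonoidAlgebra ℤ Γ)),
      adj (ψ + ε • adj ψ) = ε • (ψ + ε • adj ψ) := by
    intro κ _ _ ψ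
    rw [adj_add, adj_zsmul, adj_adj, smul_add, smul_smul, hε, one_smul, add_comm]
  have hterm : ∀ (b : Bool) {κ : Type} [Fintype κ] [DecidableEq κ] (ℓ : κ → Λ)
      (ψ : Bool → Matrix κ κ (MonoidAlgebra ℤ Γ)) (_ : ∀ c, Sup ℓ ℓ (S.R c) (ψ c))
      (_ : ψ b + ε • adj (ψ b) = 0), Z0 ε (ufb ψ) := by
    intro b κ _ _ ℓ ψ hψ h
    have h1 : adj (ψ b) = (-ε) • ψ b := by
      have h2 := congrArg (fun X => ε • X) h
      simp only [smul_add, smul_smul, hε, one_smul, smul_zero] at h2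
      rw [neg_smul]
      exact eq_neg_of_add_eq_zero_right h2
    obtain ⟨χ, hχ, _⟩ := half_lab hno hε' (S.irr b) (ψ b) h1 (hψ b)
    exact z0_mod ε ψ b χ (by rw [sub_eq_add_neg, ← neg_smul]; exact hχ)
  induction n with
  | zero =>
    intro b κ _ _ ℓ hn hK ψ hψ h
    refine hterm b ℓ ψ hψ ?_
    have h1 : (1 : Matrix κ κ (MonoidAlgebra ℤ Γ)) = 0 := h
    rw [← Matrix.one_mul (ψ b + ε • adj (ψ b)), h1, Matrix.zero_mul]
  | succ n ih =>
    intro b κ _ _ ℓ hn hK ψ hψ h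
    rcases n with _ | m
    · refine hterm b ℓ ψ hψ ?_
      have h1 : 1 * (ψ b + ε • adj (ψ b)) = 0 := h
      rwa [Matrix.one_mul] at h1
    have hLs : ∀ c, Sup ℓ ℓ (S.R c) (ψ c + ε • adj (ψ c)) := fun c =>
      (hψ c).add (((hψ c).adj (S.inv c) (S.symm c)).zsmul ε)
    obtain ⟨M, i1, i2, ℓM, Y, L', hl, hY, hL, hL', hLs', hker, hinj⟩ :=
      factor hε hn hK (S.inv b) (S.symm b) _ (hsym (ψ b)) (hLs b)
    obtain ⟨ψ', hψ', hψs'⟩ := half_lab hno hε (S.irr b) L' hL' hLs'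
    have hnM : Nrm Γ ℓM := by
      intro i j g hg
      obtain ⟨k, hk⟩ := hl i
      obtain ⟨l, hl⟩ := hl j
      rw [hk, hl] at hg ⊢
      exact hn _ _ _ hg
    have hKM : SK Γ ℓM := by
      intro j
      obtain ⟨k, hk⟩ := hl j
      rw [hk]
      exact hK k
    have hYt : Sup ℓM ℓ (fun x y => x = y) (adj Y) := hY.adj inv_eq (fun x y h => h.symm)
    -- the difference is exact
    obtain ⟨χ, hχ, _⟩ := half_lab hno hε' (S.irr b) (ψ b - Y * ψ' * adj Y)
      (by
        have h1 : (ψ b - Y * ψ' * adj Y) + ε • adj (ψ b - Y * ψ' * adj Y) = 0 := by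
          have h2 : Y * L' * adj Y = Y * ψ' * adj Y + ε • adj (Y * ψ' * adj Y) := by
            rw [hψ']
            simp only [adj_mul, adj_adj, Matrix.mul_add, Matrix.add_mul, Matrix.mul_smul,
              Matrix.smul_mul, Matrix.mul_assoc]
          rw [adj_sub, smul_sub]
          have h3 : ψ b - Y * ψ' * adj Y + (ε • adj (ψ b) - ε • adj (Y * ψ' * adj Y))
              = (ψ b + ε • adj (ψ b)) - (Y * ψ' * adj Y + ε • adj (Y * ψ' * adj Y)) := by abel
          rw [h3, ← h2, hL, sub_self]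
        have h2 := congrArg (fun X => ε • X) h1
        simp only [smul_add, smul_smul, hε, one_smul, smul_zero] at h2
        rw [neg_smul]
        exact eq_neg_of_add_eq_zero_right h2)
      (by
        have h1 : Sup ℓ ℓ (S.R b) (Y * ψ' * adj Y) :=
          (hY.mul (S.inv b) (fun x y z h h' => eq_trans_rel x y z h h') hψs').mul inv_eq
            (fun x y z h h' => by rw [← h']; exact h) hYt
        have h2 := (hψ b).add (h1.zsmul (-1))
        rwa [neg_one_smul, ← sub_eq_add_neg] at h2)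
    have hdiff : ψ b = Y * ψ' * adj Y + (χ - ε • adj χ) := by
      have h1 : χ - ε • adj χ = χ + (-ε) • adj χ := by rw [neg_smul, sub_eq_add_neg]
      rw [h1, ← hχ]; abel
    refine Z0.of_SE (se_nxt ε ψ b Y ψ' χ hdiff) (ih (!b) ℓM hnM hKM _ ?_ ?_)
    · intro c
      by_cases hc : c = b
      · subst hc
        simp only [nxt, if_true]
        exact hψs'
      · simp only [nxt, if_neg hc]
        exact (hYt.mul (S.inv c) (fun x y z h h' => eq_trans_rel x y z h h') (hψ c)).mul inv_eq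
          (fun x y z h h' => by rw [← h']; exact h) hY
    · -- the alternating product
      have hWY : apr (fun c => ψ c + ε • adj (ψ c)) (!b) (m + 1) * Y = 0 := by
        have hW := sup_apr S.inv _ hLs (m + 1) (!b)
        refine funext fun i => ?_
        let v := apr (fun c => ψ c + ε • adj (ψ c)) (!b) (m + 1) i
        have hv : v ᵥ* (ψ b + ε • adj (ψ b)) = 0 := congrFun h i
        have h1 := part_vecMul (S.inv b) (hLs b) v hv (by
          intro y₁ hy₁ y₂ hy₂ z hz₁ hz₂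
          obtain ⟨k₁, g₁, h1, rfl⟩ := (mem_pts ℓ v y₁).mp hy₁
          obtain ⟨k₂, g₂, h2, rfl⟩ := (mem_pts ℓ v y₂).mp hy₂
          exact S.nc b (m + 1) (ℓ i) _ _ z (hW i k₁ g₁ h1) (hW i k₂ g₂ h2) hz₁ hz₂)
        have h2 : v ᵥ* Y = 0 := by
          rw [sum_part ℓ v, Matrix.sum_vecMul]
          exact Finset.sum_eq_zero fun y _ => hker y _ (at_part ℓ y v) (h1 y)
        exact h2
      refine apr_zero _ _ Y b ?_ ?_ m hWY ?_
      · simp only [nxt, if_true]
        rw [← hψ']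
        exact hL
      · have hnb : (!b) ≠ b := by cases b <;> decide
        simp only [nxt, if_neg hnb]
        simp only [adj_mul, adj_adj, Matrix.mul_add, Matrix.add_mul, Matrix.mul_smul,
          Matrix.smul_mul, Matrix.mul_assoc]
      · intro Z hZ
        simp only [nxt, if_true] at hZ ⊢
        rw [← hψ'] at hZ ⊢
        exact hinj Z hZ

/-- the case in which all stabilisers have good kernels -/
theorem stage_zero' (S : Sys Γ Λ) (hno : ∀ g : Γ, g = g⁻¹ → ∀ x : Λ, g • x = x)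
    {ε : ℤ} (hε : ε * ε = 1) (hS : ∀ x : Λ, LFK (MulAction.stabilizer Γ x))
    {κ : Type} [Fintype κ] [DecidableEq κ] (ℓ : κ → Λ) (ψ : Bool → Matrix κ κ (MonoidAlgebra ℤ Γ))
    (hψ : ∀ c, Sup ℓ ℓ (S.R c) (ψ c)) (N : ℕ)
    (hN : ((ψ true + ε • adj (ψ true)) * (ψ false + ε • adj (ψ false))) ^ N = 0) :
    Z0 ε (ufb ψ) := by
  classical
  have hrep : ∀ k, ∃ g : Γ, g • ℓ k = (Quotient.out (Quotient.mk (MulAction.orbitRel Γ Λ) (ℓ k))) := by
    intro k
    have h1 : Quotient.mk (MulAction.orbitRel Γ Λ) (Quotient.out (Quotient.mk (MulAction.orbitRel Γ Λ) (ℓ k)))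
        = Quotient.mk (MulAction.orbitRel Γ Λ) (ℓ k) := Quotient.out_eq _
    have h2 := Quotient.exact h1
    exact h2
  choose u hu using hrep
  let ℓ₁ : κ → Λ := fun k => u k • ℓ k
  have hn : Nrm Γ ℓ₁ := by
    intro k l g hg
    have h1 : (MulAction.orbitRel Γ Λ) (ℓ l) (ℓ k) := by
      change ℓ l ∈ MulAction.orbit Γ (ℓ k)
      refine ⟨(u l)⁻¹ * (g * u k), ?_⟩
      change ((u l)⁻¹ * (g * u k)) • ℓ k = ℓ l
      rw [mul_smul, mul_smul]
      change (u l)⁻¹ • g • ℓ₁ k = ℓ l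
      rw [hg]
      exact inv_smul_smul _ _
    change u k • ℓ k = u l • ℓ l
    rw [hu, hu, Quotient.sound h1]
  have hD := Dm_mul_inv u
  have hDs : ∀ (R : Λ → Λ → Prop) (_ : Inv Γ R) (θ : Matrix κ κ (MonoidAlgebra ℤ Γ)),
      Sup ℓ ℓ R θ → Sup ℓ₁ ℓ₁ R (Dm u * θ * adj (Dm u)) := by
    intro R hR θ hθ i j g hg
    rw [Dm_mul] at hg
    have h1 := hR (u i) _ _ (hθ _ _ _ hg)
    rw [smul_smul] at h1
    have h2 : u i * ((u i)⁻¹ * g * u j) = g * u j := by group
    rw [h2, mul_smul] at h1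
    exact h1
  let ψ₁ : Bool → Matrix κ κ (MonoidAlgebra ℤ Γ) := fun c => Dm u * ψ c * adj (Dm u)
  have hse : SE ε (ufb ψ) (ufb ψ₁) := by
    have h1 := exchange ε (ψ true) (Dm u * ψ false * adj (Dm u)) (Dm u)
    have h2 : adj (Dm u) * (Dm u * ψ false * adj (Dm u)) * Dm u = ψ false := by
      have h3 : adj (Dm u) * (Dm u * ψ false * adj (Dm u)) * Dm u
          = (adj (Dm u) * Dm u) * ψ false * (adj (Dm u) * Dm u) := by
        simp only [Matrix.mul_assoc]
      rw [h3, hD.2, Matrix.one_mul, Matrix.mul_one]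
    rw [h2] at h1
    exact h1.symm
  refine Z0.of_SE hse ?_
  refine final_stage' S hno hε (2 * N) false ℓ₁ hn (fun k => hS _) ψ₁ (fun c => hDs _ (S.inv c) _ (hψ c)) ?_
  rw [apr_pow]
  have h1 : ∀ c, ψ₁ c + ε • adj (ψ₁ c) = Dm u * (ψ c + ε • adj (ψ c)) * adj (Dm u) := fun c =>
    symm_conj' ε (Dm u) (ψ c)
  rw [h1, h1]
  have h2 : Dm u * (ψ true + ε • adj (ψ true)) * adj (Dm u) * (Dm u * (ψ false + ε • adj (ψ false))
      * adj (Dm u)) = Dm u * ((ψ true + ε • adj (ψ true)) * (ψ false + ε • adj (ψ false)))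
        * adj (Dm u) := by
    have h3 : Dm u * (ψ true + ε • adj (ψ true)) * adj (Dm u) * (Dm u * (ψ false + ε • adj (ψ false))
      * adj (Dm u)) = Dm u * (ψ true + ε • adj (ψ true)) * (adj (Dm u) * Dm u)
        * (ψ false + ε • adj (ψ false)) * adj (Dm u) := by simp only [Matrix.mul_assoc]
    rw [h3, hD.2, Matrix.mul_one]
    simp only [Matrix.mul_assoc]
  rw [h2]
  have h4 : ∀ (X : Matrix κ κ (MonoidAlgebra ℤ Γ)) (n : ℕ), (Dm u * X * adj (Dm u)) ^ n
      = Dm u * X ^ n * adj (Dm u) := by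
    intro X n
    induction n with
    | zero => rw [pow_zero, pow_zero, Matrix.mul_one, hD.1]
    | succ n ih =>
      rw [pow_succ, ih, pow_succ]
      have h5 : Dm u * X ^ n * adj (Dm u) * (Dm u * X * adj (Dm u))
          = Dm u * X ^ n * (adj (Dm u) * Dm u) * X * adj (Dm u) := by simp only [Matrix.mul_assoc]
      rw [h5, hD.2, Matrix.mul_one]
      simp only [Matrix.mul_assoc]
  rw [h4, hN, Matrix.mul_zero, Matrix.zero_mul]


section recursion

/-- the refined system -/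
def refSysL (S : SysL Γ Λ) (b : Bool) : SysL Γ (Ref S.toSys b) where
  toSys := refSys S.toSys b
  len := fun c n k P Q h1 h2 => S.len c n k _ _ (wk_proj S.toSys b n c P Q h1)
    (wk_proj S.toSys b (n + 2 * k) c P Q h2)
  odd := fun c k P h => S.odd c k _ (wk_proj S.toSys b (2 * k + 1) c P P h)

theorem wk_cons {R : Bool → Λ → Λ → Prop} (n : ℕ) : ∀ (b : Bool) (y x z : Λ),
    R (sd (!b) n) y x → Wk R b n x z → Wk R b (n + 1) y z := by
  induction n with
  | zero =>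
    intro b y x z h1 h2
    have h3 : x = z := h2
    subst h3
    refine ⟨y, rfl, ?_⟩
    simpa [sd] using h1
  | succ n ih =>
    rintro b y x z h1 ⟨w, h2, h3⟩
    refine ⟨w, ih (!b) y x w ?_ h2, h3⟩
    rwa [sd_succ] at h1

theorem sd_even (b : Bool) (k : ℕ) : sd b (2 * k) = !b := by
  unfold sd
  have : (2 * k) % 2 = 0 := by omega
  rw [this]; simp

theorem sd_odd (b : Bool) (k : ℕ) : sd b (2 * k + 1) = b := by
  unfold sd
  have : (2 * k + 1) % 2 = 1 := by omega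
  rw [this]; simp

theorem stageH {ε : ℤ} (hε : ε * ε = 1) (m : ℕ) :
    ∀ {Λ : Type} [MulAction Γ Λ] (S : SysL Γ Λ) (b : Bool)
      (_ : ∀ g : Γ, g = g⁻¹ → ∀ x : Λ, g • x = x)
      (_ : ∀ (n : ℕ) (x z : Λ) (g : Γ), m ≤ n → Wk S.R b (2 * n + 1) x z → g • x = z → g • z = x →
        LFK (MulAction.stabilizer Γ x ⊓ MulAction.stabilizer Γ z))
      {κ : Type} [Fintype κ] [DecidableEq κ] (ℓ : κ → Λ)
      (ψ : Bool → Matrix κ κ (MonoidAlgebra ℤ Γ)) (_ : ∀ c, Sup ℓ ℓ (S.R c) (ψ c)) (N : ℕ)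
      (_ : ((ψ true + ε • adj (ψ true)) * (ψ false + ε • adj (ψ false))) ^ N = 0),
      ZH ε (ufb ψ) := by
  induction m with
  | zero =>
    intro Λ _ S b hno hyp κ _ _ ℓ ψ₀ hψ₀ N₀ hN₀
    obtain ⟨S', ψ, N, hw, hrev, hψ, hN, hiso⟩ := elim_form S hno hε ℓ ψ₀ hψ₀ N₀ hN₀
    refine ZH.of_isoH hiso ?_
    let _ : DecidableEq (RI (ψ b)) := Classical.decEq _
    have h1 := se_nxt ε ψ b (rmat (ψ b)) (rform (ψ b)) 0 (by
      rw [adj_zero, smul_zero, sub_zero, add_zero]; exact rmat_form (ψ b))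
    refine ZH.of_SE h1 (ZH.of_Z0 ?_)
    refine stage_zero' (refSysL S' b).toSys ?_ hε ?_ (rlab S'.toSys b (ψ b) (hψ b)) _ ?_ (N + 1) ?_
    · intro g hg P
      apply Subtype.ext
      rw [ref_smul, hno g hg, hno g hg]
    · intro P
      have h2 : Wk S'.R b (2 * 0 + 1) P.1.1 P.1.2 := ⟨P.1.1, rfl, P.2⟩
      obtain ⟨n', h3, h4⟩ := hw _ _ _ _ h2
      obtain ⟨g, h5, h6⟩ := hrev _ _ _ P.2
      refine (hyp n' _ _ g (Nat.zero_le _) h4 h5 h6).mono ?_
      intro g hg
      rw [MulAction.mem_stabilizer_iff] at hg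
      rw [Subgroup.mem_inf, MulAction.mem_stabilizer_iff, MulAction.mem_stabilizer_iff]
      exact ⟨congrArg (fun P => P.1.1) hg, congrArg (fun P => P.1.2) hg⟩
    · intro c
      by_cases hc : c = b
      · subst hc
        simp only [nxt, if_true]
        exact sup_rform S'.toSys c (ψ c) (hψ c)
      · simp only [nxt, if_neg hc]
        exact sup_other S'.toSys b c hc (ψ b) (ψ c) (hψ b) (hψ c)
    · refine nil_new (fun c => ψ c + ε • adj (ψ c)) (fun c => nxt ψ b (rmat (ψ b)) (rform (ψ b)) c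
        + ε • adj (nxt ψ b (rmat (ψ b)) (rform (ψ b)) c)) (rmat (ψ b)) b ?_ ?_ N hN
      · simp only [nxt, if_true]
        rw [← symm_conj', ← rmat_form]
      · have hnb : (!b) ≠ b := by cases b <;> decide
        simp only [nxt, if_neg hnb]
        exact symm_conj ε _ _
  | succ m ih =>
    intro Λ _ S b hno hyp κ _ _ ℓ ψ₀ hψ₀ N₀ hN₀
    obtain ⟨S', ψ, N, hw, hrev, hψ, hN, hiso⟩ := elim_form S hno hε ℓ ψ₀ hψ₀ N₀ hN₀
    refine ZH.of_isoH hiso ?_
    let _ : DecidableEq (RI (ψ b)) := Classical.decEq _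
    have h1 := se_nxt ε ψ b (rmat (ψ b)) (rform (ψ b)) 0 (by
      rw [adj_zero, smul_zero, sub_zero, add_zero]; exact rmat_form (ψ b))
    refine ZH.of_SE h1 ?_
    refine ih (refSysL S' b) (!b) ?_ ?_ (rlab S'.toSys b (ψ b) (hψ b)) _ ?_ (N + 1) ?_
    · intro g hg P
      apply Subtype.ext
      rw [ref_smul, hno g hg, hno g hg]
    · intro n P Q g hmn hPQ hg1 hg2
      have h2 : Wk S'.R (!b) (2 * n + 1) P.1.1 Q.1.1 := wk_proj S'.toSys b _ _ _ _ hPQ
      have h3 : Wk S'.R (!b) (2 * n + 1 + 1) P.1.2 Q.1.1 := by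
        refine wk_cons _ _ _ P.1.1 _ ?_ h2
        rw [Bool.not_not, sd_odd]
        exact S'.symm b _ _ P.2
      have h4 : Wk S'.R b (2 * (n + 1) + 1) P.1.2 Q.1.2 := ⟨Q.1.1, h3, Q.2⟩
      obtain ⟨n', h5, h6⟩ := hw _ _ _ _ h4
      refine (hyp n' P.1.2 Q.1.2 g (by omega) h6 (congrArg (fun P => P.1.2) hg1)
        (congrArg (fun P => P.1.2) hg2)).mono ?_
      intro g hg
      rw [Subgroup.mem_inf, MulAction.mem_stabilizer_iff, MulAction.mem_stabilizer_iff] at hg ⊢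
      exact ⟨congrArg (fun P => P.1.2) hg.1, congrArg (fun P => P.1.2) hg.2⟩
    · intro c
      by_cases hc : c = b
      · subst hc
        simp only [nxt, if_true]
        exact sup_rform S'.toSys c (ψ c) (hψ c)
      · simp only [nxt, if_neg hc]
        exact sup_other S'.toSys b c hc (ψ b) (ψ c) (hψ b) (hψ c)
    · refine nil_new (fun c => ψ c + ε • adj (ψ c)) (fun c => nxt ψ b (rmat (ψ b)) (rform (ψ b)) c
        + ε • adj (nxt ψ b (rmat (ψ b)) (rform (ψ b)) c)) (rmat (ψ b)) b ?_ ?_ N hN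
      · simp only [nxt, if_true]
        rw [← symm_conj', ← rmat_form]
      · have hnb : (!b) ≠ b := by cases b <;> decide
        simp only [nxt, if_neg hnb]
        exact symm_conj ε _ _

end recursion

end Pool.Agent.T9h15.RV
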