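import Pool.Agent.T9h15.RV.St

set_option autoImplicit false
set_option linter.unusedSectionVars false
set_option linter.unusedSimpArgs false

/-! Forms supported near the edges of a tree: the theorem for reversible paths. -/

namespace Pool.Agent.T9h15.RV

open Matrix TH6.LF TH57.Thr Relation Pool.Agent.R719.LF Pool.Agent.T9h15.UN

variable {V : Type} {T : SimpleGraph V} {Γ : Type} [Group Γ] [MulAction Γ V]

/-- the system of labels of a tree with a group action -/
def treeSysL (hT : T.IsTree) (hΓ : ∀ (g : Γ) (u v : V), T.Adj u v → T.Adj (g • u) (g • v)) :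
    SysL Γ (V × V) where
  toSys := treeSys hT hΓ
  len := by
    intro b n k x z h1 h2
    by_contra hk
    have hx : T.Adj x.1 x.2 := by
      obtain ⟨j, hj⟩ : ∃ j, n + 2 * k = j + 1 := ⟨n + 2 * k - 1, by omega⟩
      rw [hj] at h2
      exact wk_adj j _ _ _ h2
    have e1 := (wk_dist hT _ _ _ _ hx h1).1
    have e2 := (wk_dist hT _ _ _ _ hx h2).1
    have e3 : st b (n + 2 * k) x = st b n x := by
      unfold st
      have : (n + 2 * k) % 2 = n % 2 := by omega
      rw [this]
    rw [e3, e1] at e2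
    omega
  odd := by
    intro b k x h
    have hx : T.Adj x.1 x.2 := wk_adj _ _ _ _ h
    have e1 := (wk_dist hT _ _ _ _ hx h).2
    have e3 : st b (2 * k + 1) x = mv b x := by
      unfold st
      have : (2 * k + 1) % 2 = 1 := by omega
      rw [this]; simp
    rw [e3, SimpleGraph.dist_self] at e1
    omega

theorem tree_mainH {κ : Type} [Fintype κ] [DecidableEq κ] (hT : T.IsTree)
    (hΓ : ∀ (g : Γ) (u v : V), T.Adj u v → T.Adj (g • u) (g • v))
    (hno : ∀ g : Γ, g * g = 1 → ∀ v : V, g • v = v) (m : ℕ)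
    (hm : ∀ (x y : V) (g : Γ), m ≤ T.dist x y → g • x = y → g • y = x →
      LFK (MulAction.stabilizer Γ x ⊓ MulAction.stabilizer Γ y))
    {ε : ℤ} (hε : ε * ε = 1) (ℓ : κ → V × V) (hℓ : ∀ k, T.Adj (ℓ k).1 (ℓ k).2)
    (ψ : Bool → Matrix κ κ (MonoidAlgebra ℤ Γ)) (hψ : ∀ c, Sup ℓ ℓ (trR T c) (ψ c))
    (hu : IsUnit (uf (ψ true) (ψ false) + ε • adj (uf (ψ true) (ψ false)))) :
    ZH ε (uf (ψ true) (ψ false)) := by
  let S := treeSysL hT hΓ
  have hLs : ∀ c, Sup ℓ ℓ (trR T c) (ψ c + ε • adj (ψ c)) := fun c =>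
    (hψ c).add (((hψ c).adj (S.inv c) (S.symm c)).zsmul ε)
  -- nilpotency
  obtain ⟨N, hN⟩ : ∃ N : ℕ, ((ψ true + ε • adj (ψ true)) * (ψ false + ε • adj (ψ false))) ^ N
      = 0 := by
    obtain ⟨B, hB⟩ := hu.exists_right_inv
    rw [uf, adj_fromBlocks, adj_zero, adj_one, fromBlocks_smul, fromBlocks_add, smul_zero,
      add_zero, zero_add, ← fromBlocks_toBlocks B, fromBlocks_multiply, ← fromBlocks_one] at hB
    obtain ⟨h1, -, h2, -⟩ := fromBlocks_inj.mp hB
    rw [Matrix.one_mul] at h1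
    refine nilp hT hΓ hε ℓ hℓ (fun c => ψ c + ε • adj (ψ c)) hLs B.toBlocks₂₁ ?_
    have h3 : B.toBlocks₁₁ = -(ε • ((ψ false + ε • adj (ψ false)) * B.toBlocks₂₁)) := by
      have h4 := congrArg (fun M => ε • M) h2
      simp only [Matrix.smul_mul, Matrix.one_mul, smul_add, smul_smul, hε, one_smul,
        smul_zero] at h4
      exact eq_neg_of_add_eq_zero_left h4
    rw [h3] at h1
    rw [Matrix.mul_neg, Matrix.mul_smul, ← Matrix.mul_assoc] at h1
    have h5 := eq_add_of_sub_eq' (a := B.toBlocks₂₁) (b := ε • ((ψ true + ε • adj (ψ true))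
      * (ψ false + ε • adj (ψ false)) * B.toBlocks₂₁)) (c := 1) (by rw [← h1]; abel)
    rw [add_comm]
    exact h5
  refine stageH hε m S true ?_ ?_ ℓ ψ hψ N hN
  · intro g hg x
    have h1 : g * g = 1 := by
      nth_rewrite 1 [hg]
      exact inv_mul_cancel g
    exact Prod.ext (hno g h1 _) (hno g h1 _)
  · intro n x z g hmn hxz hg1 hg2
    have hx := wk_adj _ _ _ _ hxz
    have hd := (wk_dist hT _ _ _ _ hx hxz).2
    have e3 : st true (2 * n + 1) x = mv true x := by
      unfold st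
      have : (2 * n + 1) % 2 = 1 := by omega
      rw [this]; simp
    rw [e3] at hd
    refine (hm (mv true x) (mv true z) g (by omega) ?_ ?_).mono ?_
    · rw [← mv_smul, hg1]
    · rw [← mv_smul, hg2]
    · intro g hg
      rw [Subgroup.mem_inf, MulAction.mem_stabilizer_iff, MulAction.mem_stabilizer_iff] at hg ⊢
      exact ⟨by rw [← mv_smul, hg.1], by rw [← mv_smul, hg.2]⟩

end Pool.Agent.T9h15.RV
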