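import Pool.Agent.T9h15.RV.Fl

set_option autoImplicit false
set_option linter.unusedSectionVars false
set_option linter.unusedSimpArgs false

/-! The elimination of directed letters for matrices. -/

namespace Pool.Agent.T9h15.RV

open Matrix TH6.LF Relation Pool.Agent.T9h15.UN

variable {Γ : Type} [Group Γ] {Ω : Type} [MulAction Γ Ω]

section sup

variable {κ μ : Type} [Fintype κ] [Fintype μ] {ℓ : κ → Ω} {ℓ' : μ → Ω}

theorem sup_zero (R : Ω → Ω → Prop) : Sup ℓ ℓ' R (0 : Matrix κ μ (MonoidAlgebra ℤ Γ)) :=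
  fun _ _ _ hg => absurd rfl hg

theorem sup_neg {R : Ω → Ω → Prop} {A : Matrix κ μ (MonoidAlgebra ℤ Γ)} (h : Sup ℓ ℓ' R A) :
    Sup ℓ ℓ' R (-A) := by
  have h3 := h.zsmul (-1)
  rwa [neg_one_smul] at h3

theorem sup_sub {R : Ω → Ω → Prop} {A B : Matrix κ μ (MonoidAlgebra ℤ Γ)} (h : Sup ℓ ℓ' R A)
    (h' : Sup ℓ ℓ' R B) : Sup ℓ ℓ' R (A - B) := by
  rw [sub_eq_add_neg]; exact h.add (sup_neg h')

theorem sup_sum {ι : Type} (s : Finset ι) {R : Ω → Ω → Prop}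
    (f : ι → Matrix κ μ (MonoidAlgebra ℤ Γ)) (h : ∀ i ∈ s, Sup ℓ ℓ' R (f i)) :
    Sup ℓ ℓ' R (∑ i ∈ s, f i) := by
  classical
  induction s using Finset.induction_on with
  | empty => rw [Finset.sum_empty]; exact sup_zero R
  | insert a s ha ih =>
    rw [Finset.sum_insert ha]
    exact (h a (Finset.mem_insert_self a s)).add (ih fun i hi => h i (Finset.mem_insert_of_mem hi))

theorem sup_trc_and {R C : Ω → Ω → Prop} {A : Matrix κ μ (MonoidAlgebra ℤ Γ)}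
    (h : Sup ℓ ℓ' C A) : Sup ℓ ℓ' (fun x y => C x y ∧ R x y) (trc R ℓ ℓ' A) := by
  classical
  intro k l g hg
  rw [coeff_trc] at hg
  split_ifs at hg with h1
  · exact ⟨h k l g hg, h1⟩
  · exact absurd rfl hg

end sup

section tw

variable {J : Type} [Fintype J] [DecidableEq J]

/-- a matrix which relates the points `x` and `τ x` -/
structure Tw (Γ : Type) [Group Γ] {Ω : Type} [MulAction Γ Ω] {J : Type} [Fintype J]
    [DecidableEq J] (L : J → Ω) (τ : Ω → Ω) (ε : ℤ) where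
  P : Matrix J J (MonoidAlgebra ℤ Γ)
  Q : Matrix J J (MonoidAlgebra ℤ Γ)
  mul : P * Q = 1
  mul' : Q * P = 1
  adjP : adj P = ε • P
  sup : Sup L L (fun x y => y = τ x) P
  sup' : Sup L L (fun x y => y = τ x) Q

variable {L : J → Ω} {τ : Ω → Ω} {ε : ℤ} (T : Tw Γ L τ ε)

/-- the twisted involution -/
noncomputable def Tw.dag (A : Matrix J J (MonoidAlgebra ℤ Γ)) : Matrix J J (MonoidAlgebra ℤ Γ) :=
  T.P * adj A * T.Q

theorem Tw.adjQ (hε : ε * ε = 1) : adj T.Q = ε • T.Q := by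
  have h1 := congrArg adj T.mul
  rw [adj_mul, T.adjP, adj_one, Matrix.mul_smul] at h1
  have h2 : ε • adj T.Q = T.Q := by
    calc ε • adj T.Q = ε • (adj T.Q * (T.P * T.Q)) := by rw [T.mul, Matrix.mul_one]
      _ = (ε • (adj T.Q * T.P)) * T.Q := by rw [Matrix.smul_mul, Matrix.mul_assoc]
      _ = T.Q := by rw [h1, Matrix.one_mul]
  rw [← h2, smul_smul, hε, one_smul, h2]

theorem Tw.dag_mul (A B : Matrix J J (MonoidAlgebra ℤ Γ)) :
    T.dag (A * B) = T.dag B * T.dag A := by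
  unfold Tw.dag
  rw [adj_mul]
  have h : T.P * adj B * T.Q * (T.P * adj A * T.Q)
      = T.P * adj B * (T.Q * T.P) * adj A * T.Q := by simp only [Matrix.mul_assoc]
  rw [h, T.mul', Matrix.mul_one]
  simp only [Matrix.mul_assoc]

theorem Tw.dag_one : T.dag 1 = 1 := by
  unfold Tw.dag
  rw [adj_one, Matrix.mul_one, T.mul]

theorem Tw.dag_zero : T.dag 0 = 0 := by
  unfold Tw.dag
  rw [adj_zero, Matrix.mul_zero, Matrix.zero_mul]

theorem Tw.dag_add (A B : Matrix J J (MonoidAlgebra ℤ Γ)) :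
    T.dag (A + B) = T.dag A + T.dag B := by
  unfold Tw.dag
  rw [adj_add, Matrix.mul_add, Matrix.add_mul]

theorem Tw.dag_neg (A : Matrix J J (MonoidAlgebra ℤ Γ)) : T.dag (-A) = -T.dag A := by
  unfold Tw.dag
  rw [adj_neg, Matrix.mul_neg, Matrix.neg_mul]

theorem Tw.dag_sub (A B : Matrix J J (MonoidAlgebra ℤ Γ)) :
    T.dag (A - B) = T.dag A - T.dag B := by
  rw [sub_eq_add_neg, T.dag_add, T.dag_neg, ← sub_eq_add_neg]

theorem Tw.dag_dag (hε : ε * ε = 1) (A : Matrix J J (MonoidAlgebra ℤ Γ)) :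
    T.dag (T.dag A) = A := by
  unfold Tw.dag
  rw [adj_mul, adj_mul, adj_adj, T.adjP, T.adjQ hε]
  have h : T.P * (ε • T.Q * (A * ε • T.P)) * T.Q = (ε * ε) • ((T.P * T.Q) * A * (T.P * T.Q)) := by
    simp only [Matrix.mul_smul, Matrix.smul_mul, smul_smul, Matrix.mul_assoc]
  rw [h, hε, T.mul, one_smul, Matrix.one_mul, Matrix.mul_one]

variable (hτ : ∀ x, τ (τ x) = x) (hτg : ∀ (g : Γ) x, τ (g • x) = g • τ x)

include hτ hτg in
theorem Tw.dag_trc {R : Ω → Ω → Prop} (hR : Inv Γ R) (A : Matrix J J (MonoidAlgebra ℤ Γ)) :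
    T.dag (trc R L L A) = trc (fun x y => R (τ y) (τ x)) L L (T.dag A) := by
  have hP : Sup L (fun j => τ (L j)) (fun x y => x = y) T.P := by
    intro i j g hg
    have h1 : g • L j = τ (L i) := T.sup i j g hg
    change L i = g • τ (L j)
    rw [← hτg, h1, hτ]
  have hQ : Sup (fun j => τ (L j)) L (fun x y => x = y) T.Q := by
    intro i j g hg
    exact (T.sup' i j g hg).symm
  have hR' : Inv Γ (fun x y => R (τ y) (τ x)) := by
    intro g x y h
    change R (τ (g • y)) (τ (g • x))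
    rw [hτg, hτg]
    exact hR g _ _ h
  unfold Tw.dag
  rw [adj_trc' hR, Matrix.mul_assoc, Matrix.mul_assoc, trc_vert_mul hR' hP, trc_mul_vert _ hQ]
  congr 2
  classical
  ext i j g
  rw [coeff_trc, coeff_trc, ← hτg, hτ, hτ]

include hτ hτg in
theorem Tw.sup_dag {R : Ω → Ω → Prop} (hR : Inv Γ R) {A : Matrix J J (MonoidAlgebra ℤ Γ)}
    (hA : Sup L L R A) : Sup L L (fun x z => R (τ z) (τ x)) (T.dag A) := by
  have h := T.dag_trc hτ hτg hR A
  rw [trc_of_sup hA] at h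
  rw [h]
  exact sup_trc _ _

variable {X₀ : Matrix J J (MonoidAlgebra ℤ Γ)}

theorem Tw.dag_pow (A : Matrix J J (MonoidAlgebra ℤ Γ)) (n : ℕ) :
    T.dag (A ^ n) = T.dag A ^ n := by
  induction n with
  | zero => rw [pow_zero, pow_zero, T.dag_one]
  | succ n ih => rw [pow_succ, T.dag_mul, ih, ← pow_succ']

include hτ hτg in
theorem Tw.fil_dag (hX : T.dag X₀ = X₀) {m : ℕ} {A : Matrix J J (MonoidAlgebra ℤ Γ)}
    (hA : A ∈ Fil L X₀ m) : T.dag A ∈ Fil L X₀ m := by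
  induction hA using AddSubgroup.closure_induction with
  | mem A hA =>
    obtain ⟨j, h1, R, hR, rfl⟩ := hA
    rw [T.dag_trc hτ hτg hR, T.dag_pow, hX]
    refine fil_gen h1 ?_
    intro g x y h
    change R (τ (g • y)) (τ (g • x))
    rw [hτg, hτg]
    exact hR g _ _ h
  | zero => rw [T.dag_zero]; exact zero_mem _
  | add A B _ _ h1 h2 => rw [T.dag_add]; exact add_mem h1 h2
  | neg A _ h1 => rw [T.dag_neg]; exact neg_mem h1

end tw

section step

variable {J : Type} [Fintype J] [DecidableEq J] {L : J → Ω} {τ : Ω → Ω} {ε : ℤ}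
  (T : Tw Γ L τ ε) (hτ : ∀ x, τ (τ x) = x) (hτg : ∀ (g : Γ) x, τ (g • x) = g • τ x)
  {lt : Ω → Ω → Prop} (hlt : ∀ x y, lt x y → ¬ lt (τ y) (τ x)) (hlti : Inv Γ lt)
  {X₀ : Matrix J J (MonoidAlgebra ℤ Γ)} {ρ₀ : Ω → Ω → Prop}

/-- letters which are neither eliminated nor reversals of eliminated letters -/
def ne (τ : Ω → Ω) (lt : Ω → Ω → Prop) (x y : Ω) : Prop := ¬ lt x y ∧ ¬ lt (τ y) (τ x)

include hlt in
theorem trc_split (X : Matrix J J (MonoidAlgebra ℤ Γ)) :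
    X = trc (ne τ lt) L L X + trc lt L L X + trc (fun x y => lt (τ y) (τ x)) L L X := by
  classical
  ext i j g
  simp only [Matrix.add_apply, coeff_add', coeff_trc, ne]
  by_cases h1 : lt (L i) (g • L j)
  · have h2 := hlt _ _ h1
    simp [h1, h2]
  · by_cases h2 : lt (τ (g • L j)) (τ (L i)) <;> simp [h1, h2]

include hτ hτg hlt hlti in
theorem el_step (hε : ε * ε = 1) (hρ₀ : Inv Γ ρ₀) (H₀ : MT τ ρ₀) (hX₀ : Sup L L ρ₀ X₀)
    (hd₀ : T.dag X₀ = X₀) {N : ℕ} (hN : X₀ ^ (N + 1) = 0)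
    {ρ : Ω → Ω → Prop} (hρ : Inv Γ ρ) (H : MT τ ρ) (X : Matrix J J (MonoidAlgebra ℤ Γ))
    (hX : Sup L L ρ X) (hX1 : X ∈ Fil L X₀ 1) (hd : T.dag X = X) {a : ℕ}
    (ha : trc lt L L X ∈ Fil L X₀ (a + 1)) :
    ∃ (X' : Matrix J J (MonoidAlgebra ℤ Γ)) (G : (Matrix J J (MonoidAlgebra ℤ Γ))ˣ),
      Sup L L (el τ ρ lt) X' ∧ X' ∈ Fil L X₀ 1 ∧ T.dag X' = X' ∧
      trc lt L L X' ∈ Fil L X₀ (a + 2) ∧ G.val - 1 ∈ Fil L X₀ 1 ∧
      G.val * (1 + X) * T.dag G.val = 1 + X' := by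
  set n := trc lt L L X with hn
  set nb := trc (fun x y => lt (τ y) (τ x)) L L X with hnb
  set r := trc (ne τ lt) L L X with hr
  have hsum : X = r + n + nb := trc_split hlt X
  have hlti' : Inv Γ (fun x y => lt (τ y) (τ x)) := by
    intro g x y h
    change lt (τ (g • y)) (τ (g • x))
    rw [hτg, hτg]
    exact hlti g _ _ h
  have hnei : Inv Γ (ne τ lt) := by
    intro g x y h
    refine ⟨fun h1 => h.1 ((hlti.iff g _ _).mp h1), fun h1 => h.2 ?_⟩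
    rw [hτg, hτg] at h1
    exact (hlti.iff g _ _).mp h1
  have hdn : T.dag n = nb := by rw [hn, T.dag_trc hτ hτg hlti, hd]
  have hdnb : T.dag nb = n := by rw [← hdn, T.dag_dag hε]
  have hdr : T.dag r = r := by
    rw [hr, T.dag_trc hτ hτg hnei, hd]
    congr 1
    ext x y
    unfold ne
    rw [hτ, hτ]
    exact and_comm
  have hn1 : n ∈ Fil L X₀ 1 := fil_trc hlti hX1
  have hnb1 : nb ∈ Fil L X₀ 1 := fil_trc hlti' hX1
  have hr1 : r ∈ Fil L X₀ 1 := fil_trc hnei hX1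
  have hnN : (-n) ^ (N + 1) = 0 := by
    have h1 := fil_pow hρ₀ H₀ hX₀ (neg_mem hn1) (N + 1)
    rw [mul_one] at h1
    exact fil_bot hN h1
  let G : Matrix J J (MonoidAlgebra ℤ Γ) := ∑ i ∈ Finset.range (N + 1), (-n) ^ i
  have hG1 : G * (1 + n) = 1 := by
    have h1 := geom_sum_mul_neg (-n) (N + 1)
    rw [sub_neg_eq_add, hnN, sub_zero] at h1
    exact h1
  have hG2 : (1 + n) * G = 1 := by
    have h1 := mul_neg_geom_sum (-n) (N + 1)
    rw [sub_neg_eq_add, hnN, sub_zero] at h1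
    exact h1
  have hG3 : (1 + nb) * T.dag G = 1 := by
    have h1 := congrArg T.dag hG1
    rwa [T.dag_mul, T.dag_add, T.dag_one, hdn] at h1
  let G' : Matrix J J (MonoidAlgebra ℤ Γ) := ∑ i ∈ Finset.range N, (-n) ^ (i + 1)
  have hGG : G = 1 + G' := by
    simp only [G, G']
    rw [Finset.sum_range_succ', pow_zero, add_comm]
  have hG' : G' ∈ Fil L X₀ (a + 1) := by
    refine sum_mem fun i _ => ?_
    refine fil_anti ?_ (fil_pow hρ₀ H₀ hX₀ (neg_mem ha) (i + 1))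
    nlinarith [Nat.zero_le (i * (a + 1))]
  have hD' : T.dag G' ∈ Fil L X₀ (a + 1) := T.fil_dag hτ hτg hd₀ hG'
  have hM1 : r - n * nb ∈ Fil L X₀ 1 := by
    refine sub_mem hr1 (fil_anti (by omega) (fil_mul hρ₀ H₀ hX₀ hn1 hnb1))
  let X' := G * (r - n * nb) * T.dag G
  have hX'r : X' - r ∈ Fil L X₀ (a + 2) := by
    have h1 : X' - r = -(n * nb) + (G' * (r - n * nb) + (r - n * nb) * T.dag G'
        + G' * (r - n * nb) * T.dag G') := by
      simp only [X']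
      rw [hGG, T.dag_add, T.dag_one]
      noncomm_ring
    rw [h1]
    refine add_mem (neg_mem ?_) (add_mem (add_mem ?_ ?_) ?_)
    · exact fil_anti (by omega) (fil_mul hρ₀ H₀ hX₀ ha hnb1)
    · exact fil_anti (by omega) (fil_mul hρ₀ H₀ hX₀ hG' hM1)
    · exact fil_anti (by omega) (fil_mul hρ₀ H₀ hX₀ hM1 hD')
    · exact fil_anti (by omega) (fil_mul hρ₀ H₀ hX₀ (fil_mul hρ₀ H₀ hX₀ hG' hM1) hD')
  refine ⟨X', ⟨G, 1 + n, hG1, hG2⟩, ?_, ?_, ?_, ?_, ?_, ?_⟩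
  · -- the support
    have hnS : Sup L L (nL ρ lt) n := sup_trc_and hX
    have hnbS : Sup L L (nbL τ ρ lt) nb := sup_trc_and hX
    have hrS : Sup L L (rL τ ρ lt) r := sup_trc_and hX
    have hnLi : Inv Γ (nL ρ lt) := inv_and hρ hlti
    have hnbLi : Inv Γ (nbL τ ρ lt) := inv_and hρ hlti'
    have hGS : Sup L L (ReflTransGen (nL ρ lt)) G := by
      refine sup_sum _ _ fun i _ => ?_
      exact (sup_pow hnLi (sup_neg hnS) i).mono fun x y h => h.rtg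
    have hGS' : Sup L L (ReflTransGen (nbL τ ρ lt)) (T.dag G) := by
      refine (T.sup_dag hτ hτg (inv_rtg hnLi) hGS).mono fun x y h => ?_
      have h1 := rtg_rev (τ := τ) (ρ' := nbL τ ρ lt)
        (fun x y h => ⟨H.sym _ _ h.1, by rw [hτ, hτ]; exact h.2⟩) h
      rwa [hτ, hτ] at h1
    have hMS : Sup L L (mdL τ ρ lt) (r - n * nb) := by
      refine sup_sub (hrS.mono fun x y h => Or.inl h) ?_
      exact hnS.mul hnbLi (fun x y z h h' => Or.inr ⟨y, h, h'⟩) hnbS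
    have hmdi : Inv Γ (mdL τ ρ lt) := by
      rintro g x y (h | ⟨c, h1, h2⟩)
      · exact Or.inl ⟨hρ g _ _ h.1, (hnei g x y h.2).1, (hnei g x y h.2).2⟩
      · exact Or.inr ⟨g • c, hnLi g _ _ h1, hnbLi g _ _ h2⟩
    have h1 : Sup L L (fun x b => ∃ a, ReflTransGen (nL ρ lt) x a ∧ mdL τ ρ lt a b)
        (G * (r - n * nb)) := hGS.mul hmdi (fun x y z h h' => ⟨y, h, h'⟩) hMS
    exact h1.mul (inv_rtg hnbLi) (fun x y z h h' => ⟨y, h, h'⟩) hGS'
  · have h1 : X' = (X' - r) + r := by abel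
    rw [h1]
    exact add_mem (fil_anti (by omega) hX'r) hr1
  · simp only [X']
    rw [T.dag_mul, T.dag_mul, T.dag_dag hε, T.dag_sub, T.dag_mul, hdr, hdn, hdnb, Matrix.mul_assoc]
  · have h1 : X' = (X' - r) + r := by abel
    have h2 : trc lt L L r = 0 := by
      rw [hr, trc_trc]
      classical
      ext i j g
      rw [coeff_trc, if_neg]
      · rfl
      · rintro ⟨h3, h4⟩
        exact h3.1 h4
    rw [h1, trc_add, h2, add_zero]
    exact fil_trc hlti hX'r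
  · change G - 1 ∈ _
    rw [hGG, add_sub_cancel_left]
    exact fil_anti (by omega) hG'
  · change G * (1 + X) * T.dag G = 1 + X'
    have h1 : (1 : Matrix J J (MonoidAlgebra ℤ Γ)) + X = (1 + n) * (1 + nb) + (r - n * nb) := by
      rw [hsum]
      noncomm_ring
    rw [h1, Matrix.mul_add, Matrix.add_mul, ← Matrix.mul_assoc, hG1, Matrix.one_mul, hG3]

include hτ hτg hlt hlti in
theorem el_loop (hε : ε * ε = 1) (hρ₀ : Inv Γ ρ₀) (H₀ : MT τ ρ₀) (hX₀ : Sup L L ρ₀ X₀)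
    (hd₀ : T.dag X₀ = X₀) {N : ℕ} (hN : X₀ ^ (N + 1) = 0) (a : ℕ) :
    ∃ (ρ : Ω → Ω → Prop) (X : Matrix J J (MonoidAlgebra ℤ Γ))
      (E : (Matrix J J (MonoidAlgebra ℤ Γ))ˣ),
      Inv Γ ρ ∧ MT τ ρ ∧ (∀ x y, ρ x y → TransGen ρ₀ x y) ∧ Sup L L ρ X ∧ X ∈ Fil L X₀ 1 ∧
      T.dag X = X ∧ trc lt L L X ∈ Fil L X₀ (a + 1) ∧ E.val - 1 ∈ Fil L X₀ 1 ∧
      E.val * (1 + X₀) * T.dag E.val = 1 + X := by
  induction a with
  | zero =>
    refine ⟨ρ₀, X₀, 1, hρ₀, H₀, fun x y h => TransGen.single h, hX₀, fil_self, hd₀,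
      fil_trc hlti fil_self, ?_, ?_⟩
    · rw [Units.val_one, sub_self]; exact zero_mem _
    · rw [Units.val_one, T.dag_one, Matrix.one_mul, Matrix.mul_one]
  | succ a ih =>
    obtain ⟨ρ, X, E, h1, h2, h3, h4, h5, h6, h7, h8, h9⟩ := ih
    obtain ⟨X', G, g1, g2, g3, g4, g5, g6⟩ := el_step T hτ hτg hlt hlti hε hρ₀ H₀ hX₀ hd₀ hN h1 h2 X
      h4 h5 h6 h7
    have hlti' : Inv Γ (fun x y => lt (τ y) (τ x)) := by
      intro g x y h
      change lt (τ (g • y)) (τ (g • x))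
      rw [hτg, hτg]
      exact hlti g _ _ h
    refine ⟨el τ ρ lt, X', G * E, ?_, h2.elim hτ hlt, ?_, g1, g2, g3, g4, ?_, ?_⟩
    · rintro g x z ⟨b, ⟨a, k1, k2⟩, k3⟩
      refine ⟨g • b, ⟨g • a, inv_rtg (inv_and h1 hlti) g _ _ k1, ?_⟩,
        inv_rtg (inv_and h1 hlti') g _ _ k3⟩
      rcases k2 with k | ⟨c, k4, k5⟩
      · refine Or.inl ⟨h1 g _ _ k.1, fun k6 => k.2.1 ((hlti.iff g _ _).mp k6), fun k6 => k.2.2 ?_⟩
        rw [hτg, hτg] at k6
        exact (hlti.iff g _ _).mp k6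
      · exact Or.inr ⟨g • c, (inv_and h1 hlti) g _ _ k4, (inv_and h1 hlti') g _ _ k5⟩
    · intro x y h
      have h10 := el_trans h
      clear h
      induction h10 with
      | single k => exact h3 _ _ k
      | tail _ k ih => exact ih.trans (h3 _ _ k)
    · have h10 : (G * E).val - 1 = (G.val - 1) * (E.val - 1) + (G.val - 1) + (E.val - 1) := by
        rw [Units.val_mul]; noncomm_ring
      rw [h10]
      exact add_mem (add_mem (fil_anti (by omega) (fil_mul hρ₀ H₀ hX₀ g5 h8)) g5) h8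
    · rw [Units.val_mul, T.dag_mul, ← g6, ← h9]
      simp only [Matrix.mul_assoc]

include hτ hτg hlt hlti in
theorem el_final (hε : ε * ε = 1) (hρ₀ : Inv Γ ρ₀) (H₀ : MT τ ρ₀) (hX₀ : Sup L L ρ₀ X₀)
    (hd₀ : T.dag X₀ = X₀) {N : ℕ} (hN : X₀ ^ (N + 1) = 0) :
    ∃ (ρ : Ω → Ω → Prop) (X : Matrix J J (MonoidAlgebra ℤ Γ))
      (E : (Matrix J J (MonoidAlgebra ℤ Γ))ˣ),
      Inv Γ ρ ∧ MT τ ρ ∧ (∀ x y, ρ x y → TransGen ρ₀ x y) ∧
      Sup L L (fun x y => ρ x y ∧ ne τ lt x y) X ∧ X ^ (N + 1) = 0 ∧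
      T.dag X = X ∧ Sup L L (TransGen ρ₀) (E.val - 1) ∧
      E.val * (1 + X₀) * T.dag E.val = 1 + X := by
  obtain ⟨ρ, X, E, h1, h2, h3, h4, h5, h6, h7, h8, h9⟩ :=
    el_loop T hτ hτg hlt hlti hε hρ₀ H₀ hX₀ hd₀ hN N
  have h10 : trc lt L L X = 0 := fil_bot hN h7
  have h11 : trc (fun x y => lt (τ y) (τ x)) L L X = 0 := by
    have h := T.dag_trc hτ hτg hlti X
    rw [h10, h6, T.dag_zero] at h
    exact h.symm
  have h12 := trc_split (L := L) hlt X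
  rw [h10, h11, add_zero, add_zero] at h12
  refine ⟨ρ, X, E, h1, h2, h3, ?_, ?_, h6, fil_sup hρ₀ hX₀ h8, h9⟩
  · rw [h12]
    exact sup_trc_and h4
  · have h13 := fil_pow hρ₀ H₀ hX₀ h5 (N + 1)
    rw [mul_one] at h13
    exact fil_bot hN h13

end step

end Pool.Agent.T9h15.RV
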