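import Mathlib

set_option autoImplicit false
set_option linter.unusedSectionVars false
set_option linter.unusedSimpArgs false

/-! Relations with unique paths, and the elimination of directed letters. -/

namespace Pool.Agent.T9h15.RV

open Relation

variable {Ω : Type}

/-- a relation with unique paths, which is compatible with an involution `τ` -/
structure MT (τ : Ω → Ω) (ρ : Ω → Ω → Prop) : Prop where
  sym : ∀ x y, ρ x y → ρ (τ y) (τ x)
  acy : ∀ x, ¬ TransGen ρ x x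
  irr : ∀ x, ¬ TransGen ρ x (τ x)
  unq : ∀ x y₁ y₂ z, ReflTransGen ρ x y₁ → ReflTransGen ρ x y₂ → ρ y₁ z → ρ y₂ z → y₁ = y₂

section basic

variable {τ : Ω → Ω} (hτ : ∀ x, τ (τ x) = x) {ρ : Ω → Ω → Prop}

theorem rtg_mono {ρ ρ' : Ω → Ω → Prop} (h : ∀ x y, ρ x y → ρ' x y) {x y : Ω}
    (h1 : ReflTransGen ρ x y) : ReflTransGen ρ' x y := by
  induction h1 with
  | refl => exact ReflTransGen.refl
  | tail _ h3 ih => exact ih.tail (h _ _ h3)

theorem tg_mono {ρ ρ' : Ω → Ω → Prop} (h : ∀ x y, ρ x y → ρ' x y) {x y : Ω}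
    (h1 : TransGen ρ x y) : TransGen ρ' x y := by
  induction h1 with
  | single h3 => exact TransGen.single (h _ _ h3)
  | tail _ h3 ih => exact ih.tail (h _ _ h3)

theorem rtg_rev {ρ ρ' : Ω → Ω → Prop} (h : ∀ x y, ρ x y → ρ' (τ y) (τ x)) {x y : Ω}
    (h1 : ReflTransGen ρ x y) : ReflTransGen ρ' (τ y) (τ x) := by
  induction h1 with
  | refl => exact ReflTransGen.refl
  | tail _ h3 ih => exact ReflTransGen.head (h _ _ h3) ih

include hτ in
theorem MT.unq' (H : MT τ ρ) (x y₁ y₂ z : Ω) (h1 : ρ x y₁) (h2 : ρ x y₂)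
    (h3 : ReflTransGen ρ y₁ z) (h4 : ReflTransGen ρ y₂ z) : y₁ = y₂ := by
  have h := H.unq (τ z) (τ y₁) (τ y₂) (τ x) (rtg_rev H.sym h3) (rtg_rev H.sym h4)
    (H.sym _ _ h1) (H.sym _ _ h2)
  rw [← hτ y₁, h, hτ]

/-- two points on a path are comparable -/
theorem MT.cmp (H : MT τ ρ) {x y₁ y₂ z : Ω} (h1 : ReflTransGen ρ x y₁) (h2 : ReflTransGen ρ x y₂)
    (h3 : ReflTransGen ρ y₁ z) (h4 : ReflTransGen ρ y₂ z) :
    ReflTransGen ρ y₁ y₂ ∨ ReflTransGen ρ y₂ y₁ := by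
  induction h3 with
  | refl => exact Or.inr h4
  | @tail z' z h5 h6 ih =>
    rcases ReflTransGen.cases_tail h4 with h7 | ⟨z'', h8, h9⟩
    · left
      rw [← h7]
      exact h5.tail h6
    · have h10 : z' = z'' := H.unq x z' z'' z (h1.trans h5) (h2.trans h8) h6 h9
      subst h10
      exact ih h8

theorem MT.antisymm (H : MT τ ρ) {x y : Ω} (h1 : ReflTransGen ρ x y) (h2 : ReflTransGen ρ y x) :
    x = y := by
  rcases ReflTransGen.cases_head h1 with h3 | ⟨z, h4, h5⟩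
  · exact h3
  · exact absurd (TransGen.head' h4 (h5.trans h2)) (H.acy x)

include hτ in
/-- the first step of a path through a given point -/
theorem MT.step (H : MT τ ρ) {v v' y z : Ω} (h1 : ρ v v') (h2 : ReflTransGen ρ v' z)
    (h3 : ReflTransGen ρ v y) (h4 : ReflTransGen ρ y z) (hne : v ≠ y) : ReflTransGen ρ v' y := by
  rcases ReflTransGen.cases_head h3 with h5 | ⟨w, h6, h7⟩
  · exact absurd h5 hne
  · have h8 : v' = w := H.unq' hτ v v' w z h1 h6 h2 (h7.trans h4)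
    rw [h8]
    exact h7

end basic

section elim

variable {τ : Ω → Ω} (hτ : ∀ x, τ (τ x) = x) {ρ : Ω → Ω → Prop} (lt : Ω → Ω → Prop)
  (hlt : ∀ x y, lt x y → ¬ lt (τ y) (τ x))

/-- the letters which are eliminated -/
def nL (ρ lt : Ω → Ω → Prop) (x y : Ω) : Prop := ρ x y ∧ lt x y

/-- their reversals -/
def nbL (τ : Ω → Ω) (ρ lt : Ω → Ω → Prop) (x y : Ω) : Prop := ρ x y ∧ lt (τ y) (τ x)

/-- the letters which remain -/
def rL (τ : Ω → Ω) (ρ lt : Ω → Ω → Prop) (x y : Ω) : Prop :=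
  ρ x y ∧ ¬ lt x y ∧ ¬ lt (τ y) (τ x)

/-- the middle part of a new letter -/
def mdL (τ : Ω → Ω) (ρ lt : Ω → Ω → Prop) (a b : Ω) : Prop :=
  rL τ ρ lt a b ∨ ∃ c, nL ρ lt a c ∧ nbL τ ρ lt c b

/-- the new letters -/
def el (τ : Ω → Ω) (ρ lt : Ω → Ω → Prop) (x z : Ω) : Prop :=
  ∃ b, (∃ a, ReflTransGen (nL ρ lt) x a ∧ mdL τ ρ lt a b) ∧ ReflTransGen (nbL τ ρ lt) b z

variable {lt}

theorem rtg_n {x y : Ω} (h : ReflTransGen (nL ρ lt) x y) : ReflTransGen ρ x y :=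
  rtg_mono (fun _ _ h => h.1) h

theorem rtg_nb {x y : Ω} (h : ReflTransGen (nbL τ ρ lt) x y) : ReflTransGen ρ x y :=
  rtg_mono (fun _ _ h => h.1) h

theorem md_trans {x y : Ω} (h : mdL τ ρ lt x y) : TransGen ρ x y := by
  rcases h with h | ⟨c, h1, h2⟩
  · exact TransGen.single h.1
  · exact (TransGen.single h1.1).tail h2.1

theorem el_trans {x y : Ω} (h : el τ ρ lt x y) : TransGen ρ x y := by
  obtain ⟨b, ⟨a, h1, h2⟩, h3⟩ := h
  exact TransGen.trans_left (TransGen.trans_right (rtg_n h1) (md_trans h2)) (rtg_nb h3)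

theorem tg_el {x y : Ω} (h : TransGen (el τ ρ lt) x y) : TransGen ρ x y := by
  induction h with
  | single h => exact el_trans h
  | tail _ h ih => exact ih.trans (el_trans h)

theorem rtg_el {x y : Ω} (h : ReflTransGen (el τ ρ lt) x y) : ReflTransGen ρ x y := by
  induction h with
  | refl => exact ReflTransGen.refl
  | tail _ h ih => exact ih.trans (el_trans h).to_reflTransGen

include hτ in
theorem el_sym (H : ∀ x y, ρ x y → ρ (τ y) (τ x)) {x y : Ω} (h : el τ ρ lt x y) :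
    el τ ρ lt (τ y) (τ x) := by
  have hn : ∀ x y, nL ρ lt x y → nbL τ ρ lt (τ y) (τ x) := fun x y h =>
    ⟨H _ _ h.1, by rw [hτ, hτ]; exact h.2⟩
  have hnb : ∀ x y, nbL τ ρ lt x y → nL ρ lt (τ y) (τ x) := fun x y h => ⟨H _ _ h.1, h.2⟩
  obtain ⟨b, ⟨a, h1, h2⟩, h3⟩ := h
  refine ⟨τ a, ⟨τ b, rtg_rev hnb h3, ?_⟩, rtg_rev hn h1⟩
  rcases h2 with ⟨h4, h5, h6⟩ | ⟨c, h4, h5⟩
  · exact Or.inl ⟨H _ _ h4, h6, by rw [hτ, hτ]; exact h5⟩
  · exact Or.inr ⟨τ c, hnb _ _ h5, hn _ _ h4⟩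

include hτ in
/-- the end of a new letter -/
theorem nb_part (H : MT τ ρ) {b y z : Ω} (h : ReflTransGen (nbL τ ρ lt) b z)
    (h1 : ReflTransGen ρ b y) (h2 : ReflTransGen ρ y z) (hne : y ≠ z) :
    ∃ q, nbL τ ρ lt y q ∧ ReflTransGen ρ q z := by
  induction h using ReflTransGen.head_induction_on with
  | refl => exact absurd (H.antisymm h2 h1) hne
  | @head b b' h3 h4 ih =>
    by_cases hb : b = y
    · subst hb
      exact ⟨b', h3, rtg_nb h4⟩
    · exact ih (H.step hτ h3.1 (rtg_nb h4) h1 h2 hb)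

include hτ in
/-- an interior point of a new letter -/
theorem interior (H : MT τ ρ) {x y z : Ω} (h : el τ ρ lt x z)
    (h1 : ReflTransGen ρ x y) (h2 : ReflTransGen ρ y z) (hne1 : x ≠ y) (hne : y ≠ z) :
    (∃ p, nL ρ lt p y ∧ ReflTransGen ρ x p) ∨ ∃ q, nbL τ ρ lt y q ∧ ReflTransGen ρ q z := by
  obtain ⟨b, ⟨a, h3, h4⟩, h5⟩ := h
  have h4' := (md_trans h4).to_reflTransGen
  have hbz := rtg_nb h5
  -- the part before `a`
  have key : ∀ v, ReflTransGen (nL ρ lt) v a → ReflTransGen ρ x v → ReflTransGen ρ v y → v ≠ y →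
      (∃ p, nL ρ lt p y ∧ ReflTransGen ρ x p) ∨ (ReflTransGen ρ a y ∧ a ≠ y) := by
    intro v hv
    induction hv using ReflTransGen.head_induction_on with
    | refl => intro _ h6 h7; exact Or.inr ⟨h6, h7⟩
    | @head v v' h6 h7 ih =>
      intro h8 h9 h10
      have h11 := H.step hτ h6.1 ((rtg_n h7).trans (h4'.trans hbz)) h9 h2 h10
      by_cases hv' : v' = y
      · subst hv'
        exact Or.inl ⟨v, h6, h8⟩
      · exact ih (h8.tail h6.1) h11 hv'
  rcases key x h3 ReflTransGen.refl h1 hne1 with h6 | ⟨h6, h7⟩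
  · exact Or.inl h6
  rcases h4 with h8 | ⟨c, h8, h9⟩
  · exact Or.inr (nb_part hτ H h5 (H.step hτ h8.1 hbz h6 h2 h7) h2 hne)
  · have hcb : ReflTransGen ρ c z := ReflTransGen.head h9.1 hbz
    have h10 := H.step hτ h8.1 hcb h6 h2 h7
    by_cases hc : c = y
    · subst hc
      exact Or.inl ⟨a, h8, rtg_n h3⟩
    · exact Or.inr (nb_part hτ H h5 (H.step hτ h9.1 hbz h10 h2 hc) h2 hne)

include hlt in
theorem last_letter {x y : Ω} (h : el τ ρ lt x y) :
    ∃ p, ReflTransGen ρ x p ∧ ρ p y ∧ ¬ lt p y := by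
  obtain ⟨b, ⟨a, h3, h4⟩, h5⟩ := h
  have h4' := (md_trans h4).to_reflTransGen
  rcases ReflTransGen.cases_tail h5 with h6 | ⟨c, h6, h7⟩
  · subst h6
    rcases h4 with h8 | ⟨c, h8, h9⟩
    · exact ⟨a, rtg_n h3, h8.1, h8.2.1⟩
    · exact ⟨c, (rtg_n h3).tail h8.1, h9.1, fun h => hlt _ _ h h9.2⟩
  · exact ⟨c, (rtg_n h3).trans (h4'.trans (rtg_nb h6)), h7.1, fun h => hlt _ _ h h7.2⟩

include hlt in
theorem first_letter {x y : Ω} (h : el τ ρ lt x y) :
    ∃ q, ρ x q ∧ ReflTransGen ρ q y ∧ ¬ lt (τ q) (τ x) := by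
  obtain ⟨b, ⟨a, h3, h4⟩, h5⟩ := h
  have h4' := (md_trans h4).to_reflTransGen
  rcases ReflTransGen.cases_head h3 with h6 | ⟨c, h6, h7⟩
  · subst h6
    rcases h4 with h8 | ⟨c, h8, h9⟩
    · exact ⟨b, h8.1, rtg_nb h5, h8.2.2⟩
    · exact ⟨c, h8.1, (ReflTransGen.head h9.1 (rtg_nb h5)), hlt _ _ h8.2⟩
  · exact ⟨c, h6.1, (rtg_n h7).trans (h4'.trans (rtg_nb h5)), hlt _ _ h6.2⟩

include hτ hlt in
/-- **unique paths are preserved by the elimination** -/
theorem MT.elim (H : MT τ ρ) : MT τ (el τ ρ lt) where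
  sym := fun x y h => el_sym hτ H.sym h
  acy := fun x h => H.acy x (tg_el h)
  irr := fun x h => H.irr x (tg_el h)
  unq := by
    have key : ∀ x y₁ y₂ z, ReflTransGen ρ x y₁ → ReflTransGen (el τ ρ lt) x y₂ →
        el τ ρ lt y₁ z → el τ ρ lt y₂ z → ReflTransGen ρ y₁ y₂ → y₁ = y₂ := by
      intro x y₁ y₂ z h1 h2 h3 h4 h5
      by_contra hne
      have hz : y₂ ≠ z := by
        intro h
        subst h
        exact H.acy _ (el_trans h4)
      rcases interior hτ H h3 h5 (el_trans h4).to_reflTransGen hne hz with ⟨p, h6, h7⟩ | ⟨q, h6, h7⟩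
      · rcases ReflTransGen.cases_tail h2 with h8 | ⟨w, h8, h9⟩
        · subst h8
          exact hne (H.antisymm h5 h1)
        · obtain ⟨p', h10, h11, h12⟩ := last_letter hlt h9
          have h13 := H.unq x p p' y₂ (h1.trans h7) ((rtg_el h8).trans h10) h6.1 h11
          subst h13
          exact h12 h6.2
      · obtain ⟨q', h10, h11, h12⟩ := first_letter hlt h4
        have h13 := H.unq' hτ y₂ q q' z h6.1 h10 h7 h11
        subst h13
        exact h12 h6.2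
    intro x y₁ y₂ z h1 h2 h3 h4
    have h1' := rtg_el h1
    have h2' := rtg_el h2
    rcases H.cmp h1' h2' (el_trans h3).to_reflTransGen (el_trans h4).to_reflTransGen with h | h
    · exact key x y₁ y₂ z h1' h2 h3 h4 h
    · exact (key x y₂ y₁ z h2' h1 h4 h3 h).symm

end elim

section chains

/-- paths with `n` letters -/
def Rn (ρ : Ω → Ω → Prop) : ℕ → Ω → Ω → Prop
  | 0, x, z => x = z
  | n + 1, x, z => ∃ y, Rn ρ n x y ∧ ρ y z

variable {ρ : Ω → Ω → Prop}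

theorem Rn.rtg {n : ℕ} : ∀ {x z : Ω}, Rn ρ n x z → ReflTransGen ρ x z := by
  induction n with
  | zero => intro x z h; cases h; exact ReflTransGen.refl
  | succ n ih => rintro x z ⟨y, h1, h2⟩; exact (ih h1).tail h2

theorem rn_of_rtg {x z : Ω} (h : ReflTransGen ρ x z) : ∃ n, Rn ρ n x z := by
  induction h with
  | refl => exact ⟨0, rfl⟩
  | tail _ h ih => obtain ⟨n, hn⟩ := ih; exact ⟨n + 1, _, hn, h⟩

theorem rn_of_tg {x z : Ω} (h : TransGen ρ x z) : ∃ n, Rn ρ (n + 1) x z := by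
  induction h with
  | single h => exact ⟨0, x, rfl, h⟩
  | tail _ h ih => obtain ⟨n, hn⟩ := ih; exact ⟨n + 1, _, hn, h⟩

theorem Rn.tg {n : ℕ} {x z : Ω} (h : Rn ρ (n + 1) x z) : TransGen ρ x z := by
  obtain ⟨y, h1, h2⟩ := h
  exact TransGen.tail' h1.rtg h2

theorem Rn.trans {i j : ℕ} : ∀ {x y z : Ω}, Rn ρ i x y → Rn ρ j y z → Rn ρ (i + j) x z := by
  induction j with
  | zero => intro x y z h1 h2; cases h2; exact h1
  | succ j ih => rintro x y z h1 ⟨w, h2, h3⟩; exact ⟨w, ih h1 h2, h3⟩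

theorem MT.mid {τ : Ω → Ω} (H : MT τ ρ) {i j : ℕ} : ∀ {x y₁ y₂ z : Ω}, Rn ρ i x y₁ → Rn ρ j y₁ z →
    Rn ρ i x y₂ → Rn ρ j y₂ z → y₁ = y₂ := by
  induction j with
  | zero => intro x y₁ y₂ z _ h2 _ h4; exact Eq.trans h2 (Eq.symm h4)
  | succ j ih =>
    rintro x y₁ y₂ z h1 ⟨w₁, h2, h3⟩ h4 ⟨w₂, h5, h6⟩
    have h7 := H.unq x w₁ w₂ z (h1.rtg.trans h2.rtg) (h4.rtg.trans h5.rtg) h3 h6
    subst h7
    exact ih h1 h2 h4 h5

theorem MT.len {τ : Ω → Ω} (H : MT τ ρ) {i : ℕ} : ∀ {j : ℕ} {x z : Ω}, Rn ρ i x z → Rn ρ j x z →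
    i = j := by
  induction i with
  | zero =>
    intro j x z h1 h2
    cases h1
    rcases j with _ | j
    · rfl
    · exact absurd h2.tg (H.acy x)
  | succ i ih =>
    intro j x z h1 h2
    rcases j with _ | j
    · cases h2
      exact absurd h1.tg (H.acy x)
    · obtain ⟨y₁, h3, h4⟩ := h1
      obtain ⟨y₂, h5, h6⟩ := h2
      have h7 := H.unq x y₁ y₂ z h3.rtg h5.rtg h4 h6
      subst h7
      rw [ih h3 h5]

end chains

end Pool.Agent.T9h15.RV
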