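import Pool.Agent.T9h15.UN.Lab
import Pool.Agent.T9h15.RV.Mt

set_option autoImplicit false
set_option linter.unusedSectionVars false
set_option linter.unusedSimpArgs false

/-! The filtration given by the truncations of the powers of a labelled matrix. -/

namespace Pool.Agent.T9h15.RV

open Matrix TH6.LF Relation Pool.Agent.T9h15.UN

variable {Γ : Type} [Group Γ] {Ω : Type} [MulAction Γ Ω]

section trc

variable {κ μ ι : Type} [Fintype κ] [Fintype μ] [Fintype ι]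
  {ℓ : κ → Ω} {ℓ' : μ → Ω} {ℓ'' : ι → Ω}

theorem trc_add (R : Ω → Ω → Prop) (A B : Matrix κ μ (MonoidAlgebra ℤ Γ)) :
    trc R ℓ ℓ' (A + B) = trc R ℓ ℓ' A + trc R ℓ ℓ' B := by
  classical
  ext k l g
  rw [Matrix.add_apply, coeff_add', coeff_trc, coeff_trc, coeff_trc, Matrix.add_apply, coeff_add']
  split_ifs <;> simp

theorem trc_zero (R : Ω → Ω → Prop) :
    trc R ℓ ℓ' (0 : Matrix κ μ (MonoidAlgebra ℤ Γ)) = 0 := by
  classical
  ext k l g
  rw [coeff_trc]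
  split_ifs <;> rfl

theorem trc_neg (R : Ω → Ω → Prop) (A : Matrix κ μ (MonoidAlgebra ℤ Γ)) :
    trc R ℓ ℓ' (-A) = -trc R ℓ ℓ' A := by
  have h := trc_add (ℓ := ℓ) (ℓ' := ℓ') R A (-A)
  rw [add_neg_cancel, trc_zero] at h
  exact (neg_eq_of_add_eq_zero_right h.symm).symm

theorem trc_sub (R : Ω → Ω → Prop) (A B : Matrix κ μ (MonoidAlgebra ℤ Γ)) :
    trc R ℓ ℓ' (A - B) = trc R ℓ ℓ' A - trc R ℓ ℓ' B := by
  rw [sub_eq_add_neg, trc_add, trc_neg, ← sub_eq_add_neg]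

theorem trc_trc (R S : Ω → Ω → Prop) (A : Matrix κ μ (MonoidAlgebra ℤ Γ)) :
    trc S ℓ ℓ' (trc R ℓ ℓ' A) = trc (fun x y => R x y ∧ S x y) ℓ ℓ' A := by
  classical
  ext k l g
  rw [coeff_trc, coeff_trc, coeff_trc]
  by_cases h1 : S (ℓ k) (g • ℓ' l) <;> by_cases h2 : R (ℓ k) (g • ℓ' l) <;> simp [h1, h2]

theorem trc_true (A : Matrix κ μ (MonoidAlgebra ℤ Γ)) :
    trc (fun _ _ => True) ℓ ℓ' A = A := trc_of_sup (fun _ _ _ _ => trivial)

theorem trc_congr {R S : Ω → Ω → Prop} {C : Ω → Ω → Prop} {A : Matrix κ μ (MonoidAlgebra ℤ Γ)}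
    (hA : Sup ℓ ℓ' C A) (h : ∀ x y, C x y → (R x y ↔ S x y)) : trc R ℓ ℓ' A = trc S ℓ ℓ' A := by
  classical
  ext k l g
  rw [coeff_trc, coeff_trc]
  by_cases h0 : (A k l).coeff g = 0
  · rw [h0]; simp
  · rw [if_congr (h _ _ (hA k l g h0)) rfl rfl]

theorem trc_mul_trc {R S T C D : Ω → Ω → Prop} (hS : Inv Γ S) (hD : Inv Γ D)
    (hT : ∀ x y z, C x y → D y z → (T x z ↔ R x y ∧ S y z))
    {A : Matrix κ μ (MonoidAlgebra ℤ Γ)} {B : Matrix μ ι (MonoidAlgebra ℤ Γ)}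
    (hA : Sup ℓ ℓ' C A) (hB : Sup ℓ' ℓ'' D B) :
    trc R ℓ ℓ' A * trc S ℓ' ℓ'' B = trc T ℓ ℓ'' (A * B) := by
  classical
  ext k l g
  rw [coeff_trc, Matrix.mul_apply, Matrix.mul_apply, coeff_sum', coeff_sum']
  have h : ∀ m, (trc R ℓ ℓ' A k m * trc S ℓ' ℓ'' B m l).coeff g
      = if T (ℓ k) (g • ℓ'' l) then (A k m * B m l).coeff g else 0 := by
    intro m
    rw [coeff_mul_left' (A k m).coeff.support (trc R ℓ ℓ' A k m) _ (by
        intro a ha
        rw [Finsupp.mem_support_iff] at ha ⊢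
        intro h0
        rw [coeff_trc, h0] at ha
        simp at ha),
      coeff_mul_left' (A k m).coeff.support (A k m) _ (fun _ h => h)]
    have h1 : ∀ a ∈ (A k m).coeff.support,
        (trc R ℓ ℓ' A k m).coeff a * (trc S ℓ' ℓ'' B m l).coeff (a⁻¹ * g)
        = if T (ℓ k) (g • ℓ'' l) then (A k m).coeff a * (B m l).coeff (a⁻¹ * g) else 0 := by
      intro a ha
      have h2 := hA k m a (Finsupp.mem_support_iff.mp ha)
      rw [coeff_trc, coeff_trc]
      by_cases h3 : (B m l).coeff (a⁻¹ * g) = 0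
      · rw [h3]; simp
      · have h4 := hD a _ _ (hB m l _ h3)
        rw [smul_smul, mul_inv_cancel_left] at h4
        have h5 := hT _ _ _ h2 h4
        have h6 : S (a • ℓ' m) (g • ℓ'' l) ↔ S (ℓ' m) ((a⁻¹ * g) • ℓ'' l) := by
          rw [← hS.iff a (ℓ' m), smul_smul, mul_inv_cancel_left]
        rw [h6] at h5
        by_cases h7 : R (ℓ k) (a • ℓ' m) <;> by_cases h8 : S (ℓ' m) ((a⁻¹ * g) • ℓ'' l) <;>
          simp [h5, h7, h8]
    rw [Finset.sum_congr rfl h1]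
    split_ifs
    · rfl
    · simp
  simp only [h]
  split_ifs
  · rfl
  · simp

theorem trc_vert_mul {R : Ω → Ω → Prop} (hR : Inv Γ R) {Y : Matrix κ μ (MonoidAlgebra ℤ Γ)}
    (hY : Sup ℓ ℓ' (fun x y => x = y) Y) (A : Matrix μ ι (MonoidAlgebra ℤ Γ)) :
    trc R ℓ ℓ'' (Y * A) = Y * trc R ℓ' ℓ'' A := trc_mul_left hR hY A

theorem trc_mul_vert {R : Ω → Ω → Prop} (A : Matrix κ μ (MonoidAlgebra ℤ Γ))
    {Y : Matrix μ ι (MonoidAlgebra ℤ Γ)} (hY : Sup ℓ' ℓ'' (fun x y => x = y) Y) :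
    trc R ℓ ℓ'' (A * Y) = trc R ℓ ℓ' A * Y := by
  have h := trc_mul_trc (ℓ := ℓ) (R := R) (S := fun _ _ => True) (T := R) (C := fun _ _ => True)
    (D := fun x y => x = y) (fun _ _ _ _ => trivial) inv_eq
    (fun x y z _ h => by rw [h]; simp) (A := A) (fun _ _ _ _ => trivial) hY
  rw [trc_true] at h
  exact h.symm

theorem adj_trc' {R : Ω → Ω → Prop} (hR : Inv Γ R) (A : Matrix κ μ (MonoidAlgebra ℤ Γ)) :
    adj (trc R ℓ ℓ' A) = trc (fun x y => R y x) ℓ' ℓ (adj A) := by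
  classical
  ext k l g
  rw [coeff_adj, coeff_trc, coeff_trc, coeff_adj]
  have h : R (ℓ l) (g⁻¹ • ℓ' k) ↔ R (g • ℓ l) (ℓ' k) := by
    rw [← hR.iff g, smul_inv_smul]
  simp only [h]

end trc

section inv

theorem inv_rtg {ρ : Ω → Ω → Prop} (h : Inv Γ ρ) : Inv Γ (ReflTransGen ρ) := by
  intro g x y h1
  induction h1 with
  | refl => exact ReflTransGen.refl
  | tail _ h3 ih => exact ih.tail (h g _ _ h3)

theorem inv_tg {ρ : Ω → Ω → Prop} (h : Inv Γ ρ) : Inv Γ (TransGen ρ) := by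
  intro g x y h1
  induction h1 with
  | single h3 => exact TransGen.single (h g _ _ h3)
  | tail _ h3 ih => exact ih.tail (h g _ _ h3)

theorem inv_rn {ρ : Ω → Ω → Prop} (h : Inv Γ ρ) (n : ℕ) : Inv Γ (Rn ρ n) := by
  induction n with
  | zero => intro g x y h1; cases h1; rfl
  | succ n ih => rintro g x z ⟨y, h1, h2⟩; exact ⟨g • y, ih g _ _ h1, h g _ _ h2⟩

theorem inv_comp {R S : Ω → Ω → Prop} (hR : Inv Γ R) (hS : Inv Γ S) :
    Inv Γ (fun x z => ∃ y, R x y ∧ S y z) := by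
  rintro g x z ⟨y, h1, h2⟩
  exact ⟨g • y, hR g _ _ h1, hS g _ _ h2⟩

theorem inv_and {R S : Ω → Ω → Prop} (hR : Inv Γ R) (hS : Inv Γ S) :
    Inv Γ (fun x z => R x z ∧ S x z) := fun g _ _ h => ⟨hR g _ _ h.1, hS g _ _ h.2⟩

end inv

section fil

variable {J : Type} [Fintype J] [DecidableEq J] (L : J → Ω) (X : Matrix J J (MonoidAlgebra ℤ Γ))

/-- the filtration -/
noncomputable def Fil (m : ℕ) : AddSubgroup (Matrix J J (MonoidAlgebra ℤ Γ)) :=
  AddSubgroup.closure {A | ∃ j, m ≤ j ∧ ∃ R : Ω → Ω → Prop, Inv Γ R ∧ A = trc R L L (X ^ j)}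

variable {L X}

theorem fil_gen {m j : ℕ} (h : m ≤ j) {R : Ω → Ω → Prop} (hR : Inv Γ R) :
    trc R L L (X ^ j) ∈ Fil L X m := AddSubgroup.subset_closure ⟨j, h, R, hR, rfl⟩

theorem fil_anti {m m' : ℕ} (h : m ≤ m') : Fil L X m' ≤ Fil L X m := by
  apply AddSubgroup.closure_mono
  rintro A ⟨j, h1, h2⟩
  exact ⟨j, h.trans h1, h2⟩

theorem fil_one : (1 : Matrix J J (MonoidAlgebra ℤ Γ)) ∈ Fil L X 0 := by
  have h := fil_gen (L := L) (X := X) (le_refl 0) (R := fun _ _ => True) (fun _ _ _ _ => trivial)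
  rwa [trc_true, pow_zero] at h

theorem fil_self : X ∈ Fil L X 1 := by
  have h := fil_gen (L := L) (X := X) (le_refl 1) (R := fun _ _ => True) (fun _ _ _ _ => trivial)
  rwa [trc_true, pow_one] at h

theorem fil_bot {N : ℕ} (h : X ^ N = 0) {A : Matrix J J (MonoidAlgebra ℤ Γ)}
    (hA : A ∈ Fil L X N) : A = 0 := by
  induction hA using AddSubgroup.closure_induction with
  | mem A hA =>
    obtain ⟨j, h1, R, _, rfl⟩ := hA
    rw [pow_eq_zero_of_le h1 h, trc_zero]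
  | zero => rfl
  | add A B _ _ h1 h2 => rw [h1, h2, add_zero]
  | neg A _ h1 => rw [h1, neg_zero]

theorem fil_trc {m : ℕ} {S : Ω → Ω → Prop} (hS : Inv Γ S) {A : Matrix J J (MonoidAlgebra ℤ Γ)}
    (hA : A ∈ Fil L X m) : trc S L L A ∈ Fil L X m := by
  induction hA using AddSubgroup.closure_induction with
  | mem A hA =>
    obtain ⟨j, h1, R, hR, rfl⟩ := hA
    rw [trc_trc]
    exact fil_gen h1 (inv_and hR hS)
  | zero => rw [trc_zero]; exact zero_mem _
  | add A B _ _ h1 h2 => rw [trc_add]; exact add_mem h1 h2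
  | neg A _ h1 => rw [trc_neg]; exact neg_mem h1

variable {ρ : Ω → Ω → Prop} {τ : Ω → Ω}

theorem sup_pow (hρ : Inv Γ ρ) (hX : Sup L L ρ X) (n : ℕ) : Sup L L (Rn ρ n) (X ^ n) := by
  classical
  induction n with
  | zero =>
    intro i j g hg
    rw [pow_zero, Matrix.one_apply] at hg
    split_ifs at hg with h
    · rw [MonoidAlgebra.one_def, MonoidAlgebra.coeff_single, Finsupp.single_apply] at hg
      have h2 : 1 = g := by
        by_contra h3
        exact hg (if_neg h3)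
      subst h h2
      change L i = (1 : Γ) • L i
      rw [one_smul]
    · exact absurd rfl hg
  | succ n ih =>
    rw [pow_succ]
    exact ih.mul hρ (fun x y z h h' => ⟨y, h, h'⟩) hX

theorem fil_mul (hρ : Inv Γ ρ) (H : MT τ ρ) (hX : Sup L L ρ X) {i j : ℕ}
    {A B : Matrix J J (MonoidAlgebra ℤ Γ)} (hA : A ∈ Fil L X i) (hB : B ∈ Fil L X j) :
    A * B ∈ Fil L X (i + j) := by
  induction hA using AddSubgroup.closure_induction with
  | mem A hA =>
    obtain ⟨a, ha, R, hR, rfl⟩ := hA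
    induction hB using AddSubgroup.closure_induction with
    | mem B hB =>
      obtain ⟨b, hb, S, hS, rfl⟩ := hB
      rw [trc_mul_trc (T := fun x z => ∃ y, (Rn ρ a x y ∧ Rn ρ b y z) ∧ R x y ∧ S y z) hS
        (inv_rn hρ b) ?_ (sup_pow hρ hX a) (sup_pow hρ hX b), ← pow_add]
      · refine fil_gen (by omega) ?_
        rintro g x z ⟨y, ⟨h1, h2⟩, h3, h4⟩
        exact ⟨g • y, ⟨inv_rn hρ a g _ _ h1, inv_rn hρ b g _ _ h2⟩, hR g _ _ h3, hS g _ _ h4⟩
      · intro x y z h1 h2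
        constructor
        · rintro ⟨y', ⟨h3, h4⟩, h5⟩
          have h6 := H.mid h3 h4 h1 h2
          rwa [h6] at h5
        · intro h5
          exact ⟨y, ⟨h1, h2⟩, h5⟩
    | zero => rw [Matrix.mul_zero]; exact zero_mem _
    | add B C _ _ h1 h2 => rw [Matrix.mul_add]; exact add_mem h1 h2
    | neg B _ h1 => rw [Matrix.mul_neg]; exact neg_mem h1
  | zero => rw [Matrix.zero_mul]; exact zero_mem _
  | add A C _ _ h1 h2 => rw [Matrix.add_mul]; exact add_mem h1 h2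
  | neg A _ h1 => rw [Matrix.neg_mul]; exact neg_mem h1

theorem fil_pow (hρ : Inv Γ ρ) (H : MT τ ρ) (hX : Sup L L ρ X) {i : ℕ}
    {A : Matrix J J (MonoidAlgebra ℤ Γ)} (hA : A ∈ Fil L X i) (n : ℕ) : A ^ n ∈ Fil L X (n * i) := by
  induction n with
  | zero => rw [pow_zero, zero_mul]; exact fil_one
  | succ n ih =>
    rw [pow_succ, add_mul, one_mul]
    exact fil_mul hρ H hX ih hA

theorem fil_sup (hρ : Inv Γ ρ) (hX : Sup L L ρ X)
    {A : Matrix J J (MonoidAlgebra ℤ Γ)} (hA : A ∈ Fil L X 1) : Sup L L (TransGen ρ) A := by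
  induction hA using AddSubgroup.closure_induction with
  | mem A hA =>
    obtain ⟨j, h1, R, hR, rfl⟩ := hA
    obtain ⟨n, rfl⟩ : ∃ n, j = n + 1 := ⟨j - 1, by omega⟩
    intro k l g hg
    classical
    rw [coeff_trc] at hg
    split_ifs at hg with h
    · exact (sup_pow hρ hX (n + 1) k l g hg).tg
    · exact absurd rfl hg
  | zero => intro k l g hg; exact absurd rfl hg
  | add A B _ _ h1 h2 => exact h1.add h2
  | neg A _ h1 =>
    have h3 := h1.zsmul (-1)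
    rwa [neg_one_smul] at h3

end fil

end Pool.Agent.T9h15.RV
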