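import Pool.Agent.T9h15.UN.Tree

set_option autoImplicit false
set_option linter.unusedSectionVars false
set_option linter.unusedSimpArgs false

/-! Quadratic forms and isometries without conditions on torsions. -/

namespace Pool.Agent.T9h15.RV

open Matrix TH6.LF TH57.Thr Pool.Agent.R719.LF Pool.Agent.T9h15.UN

variable {Γ : Type} [Group Γ]

section half

variable {κ : Type} [Fintype κ] [DecidableEq κ]

/-- symmetric matrices without terms of order two on the diagonal are symmetrisations -/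
theorem half' {ε : ℤ} (hε : ε * ε = 1) (L : Matrix κ κ (MonoidAlgebra ℤ Γ))
    (hL : adj L = ε • L) (h0 : ∀ i g, g = g⁻¹ → (L i i).coeff g = 0) :
    ∃ ψ : Matrix κ κ (MonoidAlgebra ℤ Γ), L = ψ + ε • adj ψ ∧
      ∀ i j g, (ψ i j).coeff g ≠ 0 → (L i j).coeff g ≠ 0 := by
  classical
  let W : (κ × κ × Γ) → (κ × κ × Γ) → Prop := WellOrderingRel
  let χ : Matrix κ κ (MonoidAlgebra ℤ Γ) := fun i j =>
    .ofCoeff ((L i j).coeff.filter (fun g => W (i, j, g) (j, i, g⁻¹)))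
  have hχ : ∀ i j g, (χ i j).coeff g = if W (i, j, g) (j, i, g⁻¹) then (L i j).coeff g else 0 := by
    intro i j g
    simp only [χ, Finsupp.filter_apply]
  have hsym : ∀ i j g, (L j i).coeff g⁻¹ = ε * (L i j).coeff g := by
    intro i j g
    have h1 := congrArg (fun A : Matrix κ κ (MonoidAlgebra ℤ Γ) => (A i j).coeff g) hL
    simp only [coeff_adj, Matrix.smul_apply, coeff_zsmul'] at h1
    exact h1
  refine ⟨χ, ?_, ?_⟩
  · ext i j g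
    rw [Matrix.add_apply, coeff_add', Matrix.smul_apply, coeff_zsmul', coeff_adj, hχ, hχ, inv_inv]
    have h3 : ε * (L j i).coeff g⁻¹ = (L i j).coeff g := by
      rw [hsym, ← mul_assoc, hε, one_mul]
    rcases trichotomous_of WellOrderingRel (i, j, g) (j, i, g⁻¹) with h | h | h
    · have h' : ¬ W (j, i, g⁻¹) (i, j, g) := fun h'' => asymm_of WellOrderingRel h h''
      rw [if_pos h, if_neg h', mul_zero, add_zero]
    · simp only [Prod.mk.injEq] at h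
      obtain ⟨rfl, _, h4⟩ := h
      have h6 := h0 i g h4
      rw [← h4, h6]
      simp
    · have h' : ¬ W (i, j, g) (j, i, g⁻¹) := fun h'' => asymm_of WellOrderingRel h h''
      rw [if_neg h', if_pos h, zero_add, h3]
  · intro i j g hg
    rw [hχ] at hg
    split_ifs at hg with h
    · exact hg
    · exact absurd rfl hg

theorem half_lab {Λ : Type} [MulAction Γ Λ] (hno : ∀ g : Γ, g = g⁻¹ → ∀ x : Λ, g • x = x)
    {ε : ℤ} (hε : ε * ε = 1) {ℓ : κ → Λ} {R : Λ → Λ → Prop} (hirr : ∀ x, ¬ R x x)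
    (L : Matrix κ κ (MonoidAlgebra ℤ Γ)) (hL : adj L = ε • L) (hS : Sup ℓ ℓ R L) :
    ∃ ψ : Matrix κ κ (MonoidAlgebra ℤ Γ), L = ψ + ε • adj ψ ∧ Sup ℓ ℓ R ψ := by
  obtain ⟨ψ, h1, h2⟩ := half' hε L hL (by
    intro i g hg
    by_contra h3
    have h4 := hS i i g h3
    rw [hno g hg] at h4
    exact hirr _ h4)
  exact ⟨ψ, h1, fun i j g hg => hS i j g (h2 i j g hg)⟩

end half

section iso

variable {κ μ ι ν : Type} [Fintype κ] [DecidableEq κ] [Fintype μ]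
  [DecidableEq μ] [Fintype ι] [DecidableEq ι] [Fintype ν] [DecidableEq ν]

/-- isometry of quadratic forms -/
def IsoH (ε : ℤ) (ψ ψ' : Matrix κ κ (MonoidAlgebra ℤ Γ)) : Prop :=
  ∃ (E : (Matrix κ κ (MonoidAlgebra ℤ Γ))ˣ) (χ : Matrix κ κ (MonoidAlgebra ℤ Γ)),
    E.val * ψ * adj E.val = ψ' + (χ - ε • adj χ)

theorem IsoH.of_iso {ε : ℤ} {ψ ψ' : Matrix κ κ (MonoidAlgebra ℤ Γ)} (h : Iso ε ψ ψ') :
    IsoH ε ψ ψ' := by
  obtain ⟨E, χ, -, h⟩ := h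
  exact ⟨E, χ, h⟩

theorem IsoH.trans {ε : ℤ} {ψ ψ' ψ'' : Matrix κ κ (MonoidAlgebra ℤ Γ)} (h : IsoH ε ψ ψ')
    (h' : IsoH ε ψ' ψ'') : IsoH ε ψ ψ'' := by
  obtain ⟨E, χ, h1⟩ := h
  obtain ⟨F, ξ, h2⟩ := h'
  refine ⟨F * E, F.val * χ * adj F.val + ξ, ?_⟩
  have e1 : (F * E).val * ψ * adj (F * E).val = F.val * (E.val * ψ * adj E.val) * adj F.val := by
    rw [Units.val_mul, adj_mul]
    simp only [Matrix.mul_assoc]
  rw [e1, h1, Matrix.mul_add, Matrix.add_mul, h2, adj_add, adj_mul, adj_mul, adj_adj]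
  rw [Matrix.mul_sub, Matrix.sub_mul, Matrix.mul_smul, Matrix.smul_mul, smul_add]
  simp only [Matrix.mul_assoc]
  abel

/-- block sums of invertible matrices -/
noncomputable def ub (a : (Matrix κ κ (MonoidAlgebra ℤ Γ))ˣ) (b : (Matrix μ μ (MonoidAlgebra ℤ Γ))ˣ) :
    (Matrix (κ ⊕ μ) (κ ⊕ μ) (MonoidAlgebra ℤ Γ))ˣ where
  val := fromBlocks a.val 0 0 b.val
  inv := fromBlocks a⁻¹.val 0 0 b⁻¹.val
  val_inv := by rw [fromBlocks_multiply]; simp [fromBlocks_one]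
  inv_val := by rw [fromBlocks_multiply]; simp [fromBlocks_one]

theorem IsoH.blocks {ε : ℤ} {ψ ψ' : Matrix κ κ (MonoidAlgebra ℤ Γ)}
    {φ φ' : Matrix μ μ (MonoidAlgebra ℤ Γ)} (h : IsoH ε ψ ψ') (h' : IsoH ε φ φ') :
    IsoH ε (fromBlocks ψ 0 0 φ) (fromBlocks ψ' 0 0 φ') := by
  obtain ⟨E, χ, h1⟩ := h
  obtain ⟨F, ξ, h2⟩ := h'
  refine ⟨ub E F, fromBlocks χ 0 0 ξ, ?_⟩
  change fromBlocks E.val 0 0 F.val * _ * adj (fromBlocks E.val 0 0 F.val) = _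
  rw [adj_fromBlocks, adj_fromBlocks, fromBlocks_multiply, fromBlocks_multiply]
  simp only [adj_zero, Matrix.mul_zero, Matrix.zero_mul, add_zero, zero_add]
  rw [h1, h2, fromBlocks_smul, fb_sub, fromBlocks_add]
  simp only [smul_zero, sub_zero, add_zero]

theorem IsoH.reindex {ε : ℤ} {ψ ψ' : Matrix κ κ (MonoidAlgebra ℤ Γ)} (e : μ ≃ κ)
    (h : IsoH ε ψ ψ') : IsoH ε (ψ.submatrix e e) (ψ'.submatrix e e) := by
  obtain ⟨E, χ, h1⟩ := h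
  refine ⟨⟨E.val.submatrix e e, E⁻¹.val.submatrix e e, ?_, ?_⟩, χ.submatrix e e, ?_⟩
  · rw [Matrix.submatrix_mul_equiv, E.mul_inv, Matrix.submatrix_one_equiv]
  · rw [Matrix.submatrix_mul_equiv, E.inv_mul, Matrix.submatrix_one_equiv]
  · change E.val.submatrix e e * ψ.submatrix e e * adj (E.val.submatrix e e) = _
    rw [adj_submatrix, Matrix.submatrix_mul_equiv, Matrix.submatrix_mul_equiv, h1, adj_submatrix]
    rfl

/-- isometry of forms on free modules with bases of the same size -/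
def IsoEH (ε : ℤ) (ψ : Matrix κ κ (MonoidAlgebra ℤ Γ)) (ψ' : Matrix μ μ (MonoidAlgebra ℤ Γ)) :
    Prop :=
  ∃ e : κ ≃ μ, IsoH ε ψ (ψ'.submatrix e e)

theorem IsoEH.of_isoE {ε : ℤ} {ψ : Matrix κ κ (MonoidAlgebra ℤ Γ)}
    {ψ' : Matrix μ μ (MonoidAlgebra ℤ Γ)} (h : IsoE ε ψ ψ') : IsoEH ε ψ ψ' := by
  obtain ⟨e, h⟩ := h
  exact ⟨e, IsoH.of_iso h⟩

theorem IsoEH.refl (ε : ℤ) (ψ : Matrix κ κ (MonoidAlgebra ℤ Γ)) : IsoEH ε ψ ψ :=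
  IsoEH.of_isoE (IsoE.refl ε ψ)

theorem IsoEH.trans {ε : ℤ} {ψ : Matrix κ κ (MonoidAlgebra ℤ Γ)}
    {ψ' : Matrix μ μ (MonoidAlgebra ℤ Γ)} {ψ'' : Matrix ι ι (MonoidAlgebra ℤ Γ)}
    (h : IsoEH ε ψ ψ') (h' : IsoEH ε ψ' ψ'') : IsoEH ε ψ ψ'' := by
  obtain ⟨e, h1⟩ := h
  obtain ⟨f, h2⟩ := h'
  refine ⟨e.trans f, h1.trans ?_⟩
  have h3 := h2.reindex e
  rwa [Matrix.submatrix_submatrix] at h3

theorem IsoEH.bs {ε : ℤ} {ψ : Matrix κ κ (MonoidAlgebra ℤ Γ)}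
    {ψ' : Matrix μ μ (MonoidAlgebra ℤ Γ)} {φ : Matrix ι ι (MonoidAlgebra ℤ Γ)}
    {φ' : Matrix ν ν (MonoidAlgebra ℤ Γ)} (h : IsoEH ε ψ ψ') (h' : IsoEH ε φ φ') :
    IsoEH ε (bs ψ φ) (bs ψ' φ') := by
  obtain ⟨e, h1⟩ := h
  obtain ⟨f, h2⟩ := h'
  refine ⟨Equiv.sumCongr e f, ?_⟩
  have h3 := h1.blocks h2
  have h4 : (UN.bs ψ' φ').submatrix (Equiv.sumCongr e f) (Equiv.sumCongr e f)
      = fromBlocks (ψ'.submatrix e e) 0 0 (φ'.submatrix f f) := by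
    ext1 i j
    rcases i with i | i <;> rcases j with j | j <;> rfl
  rw [h4]
  exact h3

/-- zero in the L-group with decoration `h` -/
def ZH (ε : ℤ) (ψ : Matrix κ κ (MonoidAlgebra ℤ Γ)) : Prop :=
  ∃ (a b : ℕ), IsoEH ε (bs ψ (hy Γ (Fin a))) (hy Γ (Fin b))

theorem ZH.of_Z0 {ε : ℤ} {ψ : Matrix κ κ (MonoidAlgebra ℤ Γ)} (h : Z0 ε ψ) : ZH ε ψ := by
  obtain ⟨a, b, h⟩ := h
  exact ⟨a, b, IsoEH.of_isoE h⟩

theorem ZH.of_isoH {ε : ℤ} {ψ ψ' : Matrix κ κ (MonoidAlgebra ℤ Γ)} (h : IsoH ε ψ ψ')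
    (h' : ZH ε ψ') : ZH ε ψ := by
  obtain ⟨a, b, h1⟩ := h'
  exact ⟨a, b, (IsoEH.bs ⟨Equiv.refl κ, h⟩ (IsoEH.refl ε _)).trans h1⟩

theorem ZH.of_SE {ε : ℤ} {ψ : Matrix κ κ (MonoidAlgebra ℤ Γ)}
    {ψ' : Matrix μ μ (MonoidAlgebra ℤ Γ)} (h : SE ε ψ ψ') (h' : ZH ε ψ') : ZH ε ψ := by
  obtain ⟨a, b, h1⟩ := h
  obtain ⟨c, d, h2⟩ := h'
  refine ⟨a + c, d + b, ?_⟩
  have e0 : IsoE ε (bs ψ (hy Γ (Fin (a + c)))) (bs ψ (hy Γ (Fin a ⊕ Fin c))) :=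
    (IsoE.refl ε ψ).bs (hy_equiv ε finSumFinEquiv.symm)
  have e1 : IsoE ε (bs ψ (hy Γ (Fin a ⊕ Fin c))) (bs (bs ψ (hy Γ (Fin a))) (hy Γ (Fin c))) :=
    ((IsoE.refl ε ψ).bs (hy_sum ε).symm).trans (bs_assoc ε _ _ _).symm
  have e2 : IsoE ε (bs (bs ψ (hy Γ (Fin a))) (hy Γ (Fin c)))
      (bs (bs ψ' (hy Γ (Fin b))) (hy Γ (Fin c))) := h1.bs (IsoE.refl ε _)
  have e3 : IsoE ε (bs (bs ψ' (hy Γ (Fin b))) (hy Γ (Fin c)))
      (bs (bs ψ' (hy Γ (Fin c))) (hy Γ (Fin b))) :=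
    ((bs_assoc ε _ _ _).trans ((IsoE.refl ε ψ').bs (bs_comm ε _ _))).trans (bs_assoc ε _ _ _).symm
  have e4 : IsoEH ε (bs (bs ψ' (hy Γ (Fin c))) (hy Γ (Fin b)))
      (bs (hy Γ (Fin d)) (hy Γ (Fin b))) := h2.bs (IsoEH.refl ε _)
  have e5 : IsoE ε (bs (hy Γ (Fin d)) (hy Γ (Fin b))) (hy Γ (Fin (d + b))) :=
    (hy_sum ε).trans (hy_equiv ε finSumFinEquiv)
  exact ((IsoEH.of_isoE (((e0.trans e1).trans e2).trans e3)).trans e4).trans (IsoEH.of_isoE e5)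

end iso

end Pool.Agent.T9h15.RV
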