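import Pool.Agent.T9h15.RV.El
import Pool.Agent.T9h15.RV.Hf

set_option autoImplicit false
set_option linter.unusedSectionVars false
set_option linter.unusedSimpArgs false

/-! Systems of labels and relations with unique paths. -/

namespace Pool.Agent.T9h15.RV

open Matrix TH6.LF Relation Pool.Agent.T9h15.UN

variable {Γ : Type} [Group Γ] {Λ : Type} [MulAction Γ Λ]

/-- a pair of relations in which the lengths of the walks are determined by their end points -/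
structure SysL (Γ : Type) [Group Γ] (Λ : Type) [MulAction Γ Λ] extends Sys Γ Λ where
  len : ∀ b n k x z, Wk R b n x z → Wk R b (n + 2 * k) x z → k = 0
  odd : ∀ b k x, ¬ Wk R b (2 * k + 1) x x

/-- labels with a side -/
structure Om (Λ : Type) where
  s : Bool
  p : Λ

instance : MulAction Γ (Om Λ) where
  smul g x := ⟨x.s, g • x.p⟩
  one_smul x := by
    change (⟨x.s, (1 : Γ) • x.p⟩ : Om Λ) = x
    rw [one_smul]
  mul_smul g h x := by
    change (⟨x.s, (g * h) • x.p⟩ : Om Λ) = ⟨x.s, g • h • x.p⟩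
    rw [mul_smul]

theorem om_smul (g : Γ) (x : Om Λ) : g • x = ⟨x.s, g • x.p⟩ := rfl

/-- the other side -/
def ot (x : Om Λ) : Om Λ := ⟨!x.s, x.p⟩

theorem ot_ot (x : Om Λ) : ot (ot x) = x := by
  unfold ot
  simp only [Bool.not_not]

theorem ot_smul (g : Γ) (x : Om Λ) : ot (g • x) = g • ot x := rfl

/-- the letters of a system -/
def lr (R : Bool → Λ → Λ → Prop) (x y : Om Λ) : Prop := y.s = (!x.s) ∧ R x.s x.p y.p

theorem inv_lr {R : Bool → Λ → Λ → Prop} (h : ∀ b, Inv Γ (R b)) : Inv Γ (lr R) :=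
  fun g _ _ h1 => ⟨h1.1, h _ g _ _ h1.2⟩

/-- the side on which a walk starts -/
def sd (b : Bool) (n : ℕ) : Bool := if n % 2 = 0 then !b else b

theorem sd_succ (b : Bool) (n : ℕ) : sd b (n + 1) = sd (!b) n := by
  unfold sd
  rw [Bool.not_not]
  rcases Nat.mod_two_eq_zero_or_one n with h | h
  · have h1 : (n + 1) % 2 = 1 := by omega
    rw [h, h1]; simp
  · have h1 : (n + 1) % 2 = 0 := by omega
    rw [h, h1]; simp

theorem wk_of_rn {R : Bool → Λ → Λ → Prop} (n : ℕ) : ∀ (x z : Om Λ), Rn (lr R) n x z →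
    Wk R (!z.s) n x.p z.p ∧ x.s = sd (!z.s) n := by
  induction n with
  | zero =>
    intro x z h
    have h1 : x = z := h
    subst h1
    refine ⟨rfl, ?_⟩
    simp [sd]
  | succ n ih =>
    rintro x z ⟨y, h1, h2, h3⟩
    obtain ⟨h4, h5⟩ := ih x y h1
    rw [h2, Bool.not_not, sd_succ]
    exact ⟨⟨y.p, h4, h3⟩, h5⟩

theorem rn_of_wk {R : Bool → Λ → Λ → Prop} (n : ℕ) : ∀ (b : Bool) (x z : Λ), Wk R b n x z →
    Rn (lr R) n ⟨sd b n, x⟩ ⟨!b, z⟩ := by
  induction n with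
  | zero =>
    intro b x z h
    have h1 : x = z := h
    subst h1
    change (⟨sd b 0, x⟩ : Om Λ) = ⟨!b, x⟩
    simp [sd]
  | succ n ih =>
    rintro b x z ⟨y, h1, h2⟩
    have h3 := ih (!b) x y h1
    rw [Bool.not_not] at h3
    rw [sd_succ]
    exact ⟨⟨b, y⟩, h3, rfl, h2⟩

theorem sd_par {b : Bool} {n m : ℕ} (h : sd b n = sd b m) : n % 2 = m % 2 := by
  unfold sd at h
  rcases Nat.mod_two_eq_zero_or_one n with h1 | h1 <;> rcases Nat.mod_two_eq_zero_or_one m with h2 | h2 <;>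
    rw [h1, h2] at h ⊢ <;> cases b <;> simp at h

/-- the relation of a system has unique paths -/
theorem SysL.mt (S : SysL Γ Λ) : MT ot (lr S.R) where
  sym := fun x y h => ⟨by
      change (!x.s) = !(!y.s)
      rw [h.1, Bool.not_not], by
      change S.R (!y.s) y.p x.p
      rw [h.1, Bool.not_not]
      exact S.symm _ _ _ h.2⟩
  acy := by
    intro x h
    obtain ⟨n, hn⟩ := rn_of_tg h
    obtain ⟨h1, h2⟩ := wk_of_rn _ _ _ hn
    have h3 : sd (!x.s) 0 = sd (!x.s) (n + 1) := by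
      rw [← h2]; simp [sd]
    have h4 := sd_par h3
    obtain ⟨k, hk⟩ : ∃ k, n + 1 = 2 * k := ⟨(n + 1) / 2, by omega⟩
    rw [hk] at h1
    have h5 := S.len (!x.s) 0 k x.p x.p rfl (by rw [zero_add]; exact h1)
    omega
  irr := by
    intro x h
    obtain ⟨n, hn⟩ := rn_of_tg h
    obtain ⟨h1, h2⟩ := wk_of_rn _ _ _ hn
    have e1 : (!(ot x).s) = x.s := by simp [ot]
    rw [e1] at h1 h2
    have h3 : sd x.s 1 = sd x.s (n + 1) := by
      rw [← h2]; simp [sd]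
    have h4 := sd_par h3
    obtain ⟨k, hk⟩ : ∃ k, n + 1 = 2 * k + 1 := ⟨n / 2, by omega⟩
    rw [hk] at h1
    exact S.odd _ _ _ h1
  unq := by
    intro x y₁ y₂ z h1 h2 h3 h4
    obtain ⟨n₁, h5⟩ := rn_of_rtg h1
    obtain ⟨n₂, h6⟩ := rn_of_rtg h2
    obtain ⟨a1, a2⟩ := wk_of_rn _ _ _ h5
    obtain ⟨b1, b2⟩ := wk_of_rn _ _ _ h6
    have e1 : y₁.s = y₂.s := by
      have := h3.1.symm.trans h4.1
      revert this
      cases y₁.s <;> cases y₂.s <;> simp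
    rw [← e1] at b1 b2
    have h7 := sd_par (a2.symm.trans b2)
    have w1 : Wk S.R y₁.s (n₁ + 1) x.p z.p := ⟨y₁.p, a1, h3.2⟩
    have w2 : Wk S.R y₁.s (n₂ + 1) x.p z.p := ⟨y₂.p, b1, by rw [e1]; exact h4.2⟩
    have h8 : n₁ = n₂ := by
      rcases Nat.le_total n₁ n₂ with h | h
      · obtain ⟨k, hk⟩ : ∃ k, n₂ + 1 = n₁ + 1 + 2 * k := ⟨(n₂ - n₁) / 2, by omega⟩
        rw [hk] at w2
        have := S.len _ _ _ _ _ w1 w2
        omega
      · obtain ⟨k, hk⟩ : ∃ k, n₁ + 1 = n₂ + 1 + 2 * k := ⟨(n₁ - n₂) / 2, by omega⟩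
        rw [hk] at w1
        have := S.len _ _ _ _ _ w2 w1
        omega
    subst h8
    have h9 := S.nc y₁.s n₁ x.p y₁.p y₂.p z.p a1 b1 h3.2 (by rw [e1]; exact h4.2)
    rcases y₁ with ⟨s₁, p₁⟩
    rcases y₂ with ⟨s₂, p₂⟩
    simp only at e1 h9
    rw [e1, h9]

/-- the system of labels of a relation with unique paths -/
def sysOf (ρ : Om Λ → Om Λ → Prop) (hρ : Inv Γ ρ) (H : MT ot ρ) (q : Om Λ → Om Λ → Prop)
    (hq : Inv Γ q) (hqs : ∀ x y, q x y → q (ot y) (ot x)) : SysL Γ Λ where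
  R b x z := ρ ⟨b, x⟩ ⟨!b, z⟩ ∧ q ⟨b, x⟩ ⟨!b, z⟩
  inv b g x z h := ⟨hρ g _ _ h.1, hq g _ _ h.2⟩
  symm b x z h := by
    have h1 := H.sym _ _ h.1
    have h2 := hqs _ _ h.2
    unfold ot at h1 h2
    simp only [Bool.not_not] at h1 h2
    exact ⟨h1, h2⟩
  irr b x h := H.irr _ (TransGen.single h.1)
  nc := by
    intro b n x y₁ y₂ z h1 h2 h3 h4
    have e1 := rn_of_wk n _ _ _ h1
    have e2 := rn_of_wk n _ _ _ h2
    rw [Bool.not_not] at e1 e2
    have hl : ∀ x y : Om Λ, lr (fun b x z => ρ ⟨b, x⟩ ⟨!b, z⟩ ∧ q ⟨b, x⟩ ⟨!b, z⟩) x y → ρ x y := by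
      rintro ⟨s, x⟩ ⟨t, y⟩ ⟨h5, h6⟩
      simp only at h5 h6
      rw [h5]
      exact h6.1
    have h5 := H.unq _ _ _ _ (rtg_mono hl e1.rtg) (rtg_mono hl e2.rtg) h3.1 h4.1
    exact congrArg Om.p h5
  len := by
    intro b n k x z h1 h2
    have e1 := rn_of_wk _ _ _ _ h1
    have e2 := rn_of_wk _ _ _ _ h2
    have e3 : sd b (n + 2 * k) = sd b n := by
      unfold sd
      have : (n + 2 * k) % 2 = n % 2 := by omega
      rw [this]
    rw [e3] at e2
    have hl : ∀ x y : Om Λ, lr (fun b x z => ρ ⟨b, x⟩ ⟨!b, z⟩ ∧ q ⟨b, x⟩ ⟨!b, z⟩) x y → ρ x y := by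
      rintro ⟨s, x⟩ ⟨t, y⟩ ⟨h5, h6⟩
      simp only at h5 h6
      rw [h5]
      exact h6.1
    have hr : ∀ n (x z : Om Λ), Rn (lr (fun b x z => ρ ⟨b, x⟩ ⟨!b, z⟩ ∧ q ⟨b, x⟩ ⟨!b, z⟩)) n x z →
        Rn ρ n x z := by
      intro n
      induction n with
      | zero => intro x z h; exact h
      | succ n ih => rintro x z ⟨y, h5, h6⟩; exact ⟨y, ih _ _ h5, hl _ _ h6⟩
    have := H.len (hr _ _ _ e1) (hr _ _ _ e2)
    omega
  odd := by
    intro b k x h
    have e1 := rn_of_wk _ _ _ _ h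
    have e3 : sd b (2 * k + 1) = b := by
      unfold sd
      have : (2 * k + 1) % 2 = 1 := by omega
      rw [this]; simp
    rw [e3] at e1
    have hl : ∀ x y : Om Λ, lr (fun b x z => ρ ⟨b, x⟩ ⟨!b, z⟩ ∧ q ⟨b, x⟩ ⟨!b, z⟩) x y → ρ x y := by
      rintro ⟨s, x⟩ ⟨t, y⟩ ⟨h5, h6⟩
      simp only at h5 h6
      rw [h5]
      exact h6.1
    have h2 := e1.tg
    exact H.irr _ (tg_mono hl h2)

end Pool.Agent.T9h15.RV
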